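import Pool.Agent.TD4.Iso2

set_option autoImplicit false

namespace Pool.Agent.TD4

open Finset

variable {V : Type*} [Fintype V] [DecidableEq V] {G : SimpleGraph V} [DecidableRel G.Adj]

variable {S1 S : Finset V}

theorem Nb.perm (v a b c d a' b' c' d' : V) (h : Nb G v a b c d)
    (hp : ∀ x, (x = a ∨ x = b ∨ x = c ∨ x = d) ↔ (x = a' ∨ x = b' ∨ x = c' ∨ x = d')) :
    Nb G v a' b' c' d' := fun x => (h x).trans (hp x)

theorem Nb.c1 {v a b c d : V} (h : Nb G v a b c d) : G.Adj v a := (h a).2 (Or.inl rfl)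

theorem Nb.c2 {v a b c d : V} (h : Nb G v a b c d) : G.Adj v b := (h b).2 (Or.inr (Or.inl rfl))

theorem Nb.c3 {v a b c d : V} (h : Nb G v a b c d) : G.Adj v c :=
  (h c).2 (Or.inr (Or.inr (Or.inl rfl)))

theorem Nb.c4 {v a b c d : V} (h : Nb G v a b c d) : G.Adj v d :=
  (h d).2 (Or.inr (Or.inr (Or.inr rfl)))

/-- A dominated vertex `g` whose neighbourhood is a transversal of a component plus `s`. -/
structure Cfg (G : SimpleGraph V) [DecidableRel G.Adj] (S1 S : Finset V)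
    (a b c s g v1 v2 v3 : V) : Prop where
  tri : Tri G S a b c
  hs : s ∈ S1
  e1 : rho G S v1 = {a, b}
  e2 : rho G S v2 = {a, c}
  e3 : rho G S v3 = {b, c}
  nb : Nb G g s v1 v2 v3

variable {a b c s g v1 v2 v3 h1 h2 h3 : V}

theorem Cfg.swap23 (C : Cfg G S1 S a b c s g v1 v2 v3) : Cfg G S1 S a c b s g v2 v1 v3 where
  tri := C.tri.swap23
  hs := C.hs
  e1 := C.e2
  e2 := C.e1
  e3 := by rw [C.e3, pair_comm]
  nb := C.nb.perm _ _ _ _ _ _ _ _ _ (fun x => by tauto)

theorem Cfg.rot (C : Cfg G S1 S a b c s g v1 v2 v3) : Cfg G S1 S b c a s g v3 v1 v2 where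
  tri := C.tri.rot
  hs := C.hs
  e1 := C.e3
  e2 := by rw [C.e1, pair_comm]
  e3 := by rw [C.e2, pair_comm]
  nb := C.nb.perm _ _ _ _ _ _ _ _ _ (fun x => by tauto)

theorem Cfg.sg (C : Cfg G S1 S a b c s g v1 v2 v3) : G.Adj s g :=
  ((C.nb s).2 (Or.inl rfl)).symm

theorem Cfg.ga (C : Cfg G S1 S a b c s g v1 v2 v3) : a ∈ rho G S v1 ∧ b ∈ rho G S v1 := by
  rw [C.e1]; simp

theorem Cfg.comp (hc : Ctx G S1 S) (C : Cfg G S1 S a b c s g v1 v2 v3) :
    ∃ h, h ≠ g ∧ Nb G v1 a b g h ∧ G.Adj s h := by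
  obtain ⟨ha, hb⟩ := C.ga
  obtain ⟨s', hs', p, p', hpp, hn, hsp, hsp'⟩ := hc.att C.tri.ab C.e1 (C.tri.reg v1 (Or.inl ha)).1
  have hgv : G.Adj v1 g := C.nb.c2.symm
  have hga : g ≠ a := hc.not_und C.hs C.sg ha
  have hgb : g ≠ b := hc.not_und C.hs C.sg hb
  rcases (hn g).1 hgv with e | e | e | e
  · exact absurd e hga
  · exact absurd e hgb
  · subst e
    have := hc.pack s C.hs s' hs' g C.sg hsp
    subst this
    exact ⟨p', Ne.symm hpp, hn, hsp'⟩
  · subst e
    have := hc.pack s C.hs s' hs' g C.sg hsp'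
    subst this
    exact ⟨p, hpp, hn.perm _ _ _ _ _ _ _ _ _ (fun x => by tauto), hsp⟩

/-- The configuration with the companions named. -/
structure Cfg2 (G : SimpleGraph V) [DecidableRel G.Adj] (S1 S : Finset V)
    (a b c s g v1 v2 v3 h1 h2 h3 : V) : Prop extends Cfg G S1 S a b c s g v1 v2 v3 where
  n1 : Nb G v1 a b g h1
  n2 : Nb G v2 a c g h2
  n3 : Nb G v3 b c g h3
  a1 : G.Adj s h1
  a2 : G.Adj s h2
  a3 : G.Adj s h3
  g1 : h1 ≠ g
  g2 : h2 ≠ g
  g3 : h3 ≠ g
  d12 : h1 ≠ h2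
  d13 : h1 ≠ h3
  d23 : h2 ≠ h3
  sN : ∀ h, G.Adj s h → h = g ∨ h = h1 ∨ h = h2 ∨ h = h3

theorem Cfg.cfg2 (hc : Ctx G S1 S) (C : Cfg G S1 S a b c s g v1 v2 v3) :
    ∃ h1 h2 h3, Cfg2 G S1 S a b c s g v1 v2 v3 h1 h2 h3 := by
  obtain ⟨h1, g1, n1, a1⟩ := C.comp hc
  obtain ⟨h2, g2, n2, a2⟩ := C.swap23.comp hc
  obtain ⟨h3, g3, n3, a3⟩ := C.rot.comp hc
  obtain ⟨ha, hb⟩ := C.ga
  have hcc : c ∈ rho G S v2 := by rw [C.e2]; simp
  have hsN : ∀ h, G.Adj s h → h = g ∨ h = h1 ∨ h = h2 ∨ h = h3 := by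
    intro h hh
    by_cases e : h = g
    · exact Or.inl e
    have hha : h ≠ a := hc.not_und C.hs hh ha
    have hhb : h ≠ b := hc.not_und C.hs hh hb
    have hhc : h ≠ c := hc.not_und C.hs hh hcc
    obtain ⟨x, hxs, hgx, hhx⟩ := hc.nu g h (Ne.symm e) s C.sg.symm hh.symm
    rcases (C.nb x).1 hgx with e' | e' | e' | e'
    · exact absurd e' hxs
    · subst e'
      rcases (n1 h).1 hhx.symm with k | k | k | k
      · exact absurd k hha
      · exact absurd k hhb
      · exact absurd k e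
      · tauto
    · subst e'
      rcases (n2 h).1 hhx.symm with k | k | k | k
      · exact absurd k hha
      · exact absurd k hhc
      · exact absurd k e
      · tauto
    · subst e'
      rcases (n3 h).1 hhx.symm with k | k | k | k
      · exact absurd k hhb
      · exact absurd k hhc
      · exact absurd k e
      · tauto
  have hcard : ∀ T : Finset V, (∀ h, G.Adj s h → h ∈ T) → 4 ≤ T.card := by
    intro T hT
    refine (hc.hdeg s).trans ?_
    rw [← SimpleGraph.card_neighborFinset_eq_degree]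
    apply card_le_card
    intro h hh
    exact hT h (by rwa [SimpleGraph.mem_neighborFinset] at hh)
  have d12 : h1 ≠ h2 := by
    rintro rfl
    have := hcard {g, h1, h3} (fun h hh => by
      simp only [mem_insert, mem_singleton]
      rcases hsN h hh with e | e | e | e <;> tauto)
    have h' := card_le_three (a := g) (b := h1) (c := h3)
    omega
  have d13 : h1 ≠ h3 := by
    rintro rfl
    have := hcard {g, h1, h2} (fun h hh => by
      simp only [mem_insert, mem_singleton]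
      rcases hsN h hh with e | e | e | e <;> tauto)
    have h' := card_le_three (a := g) (b := h1) (c := h2)
    omega
  have d23 : h2 ≠ h3 := by
    rintro rfl
    have := hcard {g, h1, h2} (fun h hh => by
      simp only [mem_insert, mem_singleton]
      rcases hsN h hh with e | e | e | e <;> tauto)
    have h' := card_le_three (a := g) (b := h1) (c := h2)
    omega
  exact ⟨h1, h2, h3, ⟨C, n1, n2, n3, a1, a2, a3, g1, g2, g3, d12, d13, d23, hsN⟩⟩

theorem Cfg2.swap23 (C : Cfg2 G S1 S a b c s g v1 v2 v3 h1 h2 h3) :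
    Cfg2 G S1 S a c b s g v2 v1 v3 h2 h1 h3 where
  toCfg := C.toCfg.swap23
  n1 := C.n2
  n2 := C.n1
  n3 := C.n3.perm _ _ _ _ _ _ _ _ _ (fun x => by tauto)
  a1 := C.a2
  a2 := C.a1
  a3 := C.a3
  g1 := C.g2
  g2 := C.g1
  g3 := C.g3
  d12 := Ne.symm C.d12
  d13 := C.d23
  d23 := C.d13
  sN := fun h hh => by have := C.sN h hh; tauto

theorem Cfg2.rot (C : Cfg2 G S1 S a b c s g v1 v2 v3 h1 h2 h3) :
    Cfg2 G S1 S b c a s g v3 v1 v2 h3 h1 h2 where
  toCfg := C.toCfg.rot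
  n1 := C.n3
  n2 := C.n1.perm _ _ _ _ _ _ _ _ _ (fun x => by tauto)
  n3 := C.n2.perm _ _ _ _ _ _ _ _ _ (fun x => by tauto)
  a1 := C.a3
  a2 := C.a1
  a3 := C.a2
  g1 := C.g3
  g2 := C.g1
  g3 := C.g2
  d12 := Ne.symm C.d13
  d13 := Ne.symm C.d23
  d23 := C.d12
  sN := fun h hh => by have := C.sN h hh; tauto

theorem Cfg2.not_abc (hc : Ctx G S1 S) (C : Cfg2 G S1 S a b c s g v1 v2 v3 h1 h2 h3) {t h : V}
    (ht : t ∈ S1) (hh : G.Adj t h) : h ≠ a ∧ h ≠ b ∧ h ≠ c := by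
  obtain ⟨ha, hb⟩ := C.toCfg.ga
  have hcc : c ∈ rho G S v2 := by rw [C.e2]; simp
  exact ⟨hc.not_und ht hh ha, hc.not_und ht hh hb, hc.not_und ht hh hcc⟩

/-- If a neighbour of `s` is adjacent to `v2`, it is `g` or `h2`. -/
theorem Cfg2.only2 (hc : Ctx G S1 S) (C : Cfg2 G S1 S a b c s g v1 v2 v3 h1 h2 h3) {t h : V}
    (ht : t ∈ S1) (hh : G.Adj t h) (hv : G.Adj v2 h) : h = g ∨ h = h2 := by
  obtain ⟨na, nb, nc⟩ := C.not_abc hc ht hh
  rcases (C.n2 h).1 hv with k | k | k | k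
  · exact absurd k na
  · exact absurd k nc
  · exact Or.inl k
  · exact Or.inr k

/-- All vertices of the component are attached to the same `s`. -/
theorem Cfg2.same (hc : Ctx G S1 S) (C : Cfg2 G S1 S a b c s g v1 v2 v3 h1 h2 h3) {w1 : V}
    (hw : w1 ≠ v1) (ew : rho G S w1 = {a, b}) : ∃ p p', p ≠ p' ∧ Nb G w1 a b p p' ∧
      G.Adj s p ∧ G.Adj s p' ∧ p ≠ g ∧ p' ≠ g := by
  have haw : a ∈ rho G S w1 := by rw [ew]; simp
  have hbw : b ∈ rho G S w1 := by rw [ew]; simp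
  obtain ⟨s', hs', p, p', hpp, hn, hsp, hsp'⟩ := hc.att C.tri.ab ew (C.tri.reg w1 (Or.inl haw)).1
  have hgw : ¬ G.Adj w1 g := by
    intro h
    rcases (C.nb w1).1 h.symm with k | k | k | k
    · subst k
      exact hc.rho_s C.hs a haw
    · exact hw k
    · subst k
      have := C.e2
      rw [ew] at this
      have hb' : b ∈ ({a, c} : Finset V) := by rw [← this]; simp
      simp [Ne.symm C.tri.ab, C.tri.bc] at hb'
    · subst k
      have := C.e3
      rw [ew] at this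
      have ha' : a ∈ ({b, c} : Finset V) := by rw [← this]; simp
      simp [C.tri.ab, C.tri.ac] at ha'
  have main : s' = s := by
    by_contra hne
    have nos : ∀ h, G.Adj s' h → G.Adj s h → False := fun h k1 k2 =>
      hne (hc.pack s' hs' s C.hs h k1 k2)
    obtain ⟨npa, npb, npc⟩ := C.not_abc hc hs' hsp
    obtain ⟨n1a, n1b, n1c⟩ := C.not_abc hc C.hs C.a1
    have hpw : G.Adj w1 p := hn.c3
    rcases hc.types C.tri hs' hsp ew hpw with
      ⟨z', w, hz'z, hz', hwz, hwz', hws, hng, hrw⟩ | ⟨x, y, hx, hy, hng⟩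
    · have : z' = v1 := hc.class_uniq C.tri.ab ew hz' C.e1 hz'z (Ne.symm hw)
      subst this
      have : G.Adj z' p := hng.c3.symm
      rcases (C.n1 p).1 this with k | k | k | k
      · exact npa k
      · exact npb k
      · exact nos p hsp (k ▸ C.sg)
      · exact nos p hsp (k ▸ C.a1)
    · have hpx : G.Adj x p := hng.c3.symm
      have hxv : x ≠ v2 := by
        rintro rfl
        rcases C.only2 hc hs' hsp hpx with k | k
        · exact nos p hsp (k ▸ C.sg)
        · exact nos p hsp (k ▸ C.a2)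
      have h1v : G.Adj v1 h1 := C.n1.c4
      rcases hc.types C.tri C.hs C.a1 C.e1 h1v with
        ⟨z', w, hz'z, hz', hwz, hwz', hws, hng', hrw⟩ | ⟨x1, y1, hx1, hy1, hng'⟩
      · have : z' = w1 := hc.class_uniq C.tri.ab C.e1 hz' ew hz'z hw
        subst this
        have : G.Adj z' h1 := hng'.c3.symm
        rcases (hn h1).1 this with k | k | k | k
        · exact n1a k
        · exact n1b k
        · exact nos h1 (k ▸ hsp) C.a1
        · exact nos h1 (k ▸ hsp') C.a1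
      · have h1x1 : G.Adj x1 h1 := hng'.c3.symm
        have hx1v : x1 ≠ v2 := by
          rintro rfl
          rcases C.only2 hc C.hs C.a1 h1x1 with k | k
          · exact C.g1 k
          · exact C.d12 k
        have : x1 = x := hc.class_uniq C.tri.ac C.e2 hx1 hx hx1v hxv
        subst this
        have hax : a ∈ rho G S x1 := by rw [hx]; simp
        obtain ⟨s'', hs'', q, q', hqq, hn'', hsq, hsq'⟩ :=
          hc.att C.tri.ac hx (C.tri.reg x1 (Or.inl hax)).1
        have k1 : s'' = s' := by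
          rcases (hn'' p).1 hpx with k | k | k | k
          · exact absurd k npa
          · exact absurd k npc
          · exact hc.pack s'' hs'' s' hs' p (k ▸ hsq) hsp
          · exact hc.pack s'' hs'' s' hs' p (k ▸ hsq') hsp
        have k2 : s'' = s := by
          rcases (hn'' h1).1 h1x1 with k | k | k | k
          · exact absurd k n1a
          · exact absurd k n1c
          · exact hc.pack s'' hs'' s C.hs h1 (k ▸ hsq) C.a1
          · exact hc.pack s'' hs'' s C.hs h1 (k ▸ hsq') C.a1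
        exact hne (k1.symm.trans k2)
  subst main
  refine ⟨p, p', hpp, hn, hsp, hsp', ?_, ?_⟩
  · rintro rfl
    exact hgw (hn.c3)
  · rintro rfl
    exact hgw (hn.c4)

/-- The neighbourhoods of the companions. -/
theorem Cfg2.companion (hc : Ctx G S1 S) (C : Cfg2 G S1 S a b c s g v1 v2 v3 h1 h2 h3)
    {w1 w2 w3 : V} (_ : w1 ≠ v1) (_ : rho G S w1 = {a, b}) (hw2 : w2 ≠ v2)
    (ew2 : rho G S w2 = {a, c}) (hw3 : w3 ≠ v3) (ew3 : rho G S w3 = {b, c}) :
    Nb G h1 s v1 w2 w3 := by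
  have h1v : G.Adj v1 h1 := C.n1.c4
  have hrs : ∀ u, u ∉ rho G S s := hc.rho_s C.hs
  obtain ⟨n1a, n1b, n1c⟩ := C.not_abc hc C.hs C.a1
  rcases hc.types C.tri C.hs C.a1 C.e1 h1v with
    ⟨z', w, hz'z, hz', hwz, hwz', hws, hng, hrw⟩ | ⟨x, y, hx, hy, hng⟩
  · exfalso
    -- both `w2` and `w3` are adjacent to `h2`
    obtain ⟨p, p', hpp, hn, hsp, hsp', hpg, hp'g⟩ := C.swap23.same hc hw2 ew2
    obtain ⟨q, q', hqq, hm, hsq, hsq', hqg, hq'g⟩ := C.rot.same hc hw3 ew3
    have ha2 : a ∈ rho G S w2 := by rw [ew2]; simp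
    have hc2 : c ∈ rho G S w2 := by rw [ew2]; simp
    have hb3 : b ∈ rho G S w3 := by rw [ew3]; simp
    have hc3 : c ∈ rho G S w3 := by rw [ew3]; simp
    have nb2 : b ∉ rho G S w2 := by rw [ew2]; simp [Ne.symm C.tri.ab, C.tri.bc]
    have na3 : a ∉ rho G S w3 := by rw [ew3]; simp [C.tri.ab, C.tri.ac]
    have hbv1 : b ∈ rho G S v1 := by rw [C.e1]; simp
    have hbz : b ∈ rho G S z' := by rw [hz']; simp
    have hav1 : a ∈ rho G S v1 := by rw [C.e1]; simp
    have haz : a ∈ rho G S z' := by rw [hz']; simp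
    have h1w2 : ¬ G.Adj h1 w2 := by
      intro h
      rcases (hng w2).1 h with k | k | k | k
      · exact hrs a (k ▸ ha2)
      · exact nb2 (k ▸ hbv1)
      · exact nb2 (k ▸ hbz)
      · exact hrw a (k ▸ ha2)
    have h1w3 : ¬ G.Adj h1 w3 := by
      intro h
      rcases (hng w3).1 h with k | k | k | k
      · exact hrs b (k ▸ hb3)
      · exact na3 (k ▸ hav1)
      · exact na3 (k ▸ haz)
      · exact hrw b (k ▸ hb3)
    have two : ∀ w r r', r ≠ r' → G.Adj s r → G.Adj s r' → r ≠ g → r' ≠ g → G.Adj w r →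
        G.Adj w r' → ¬ G.Adj h1 w → G.Adj h2 w := by
      intro w r r' hr k1 k2 k3 k4 k5 k6 k7
      have m1 : r ≠ h1 := fun e => k7 (e ▸ k5.symm)
      have m2 : r' ≠ h1 := fun e => k7 (e ▸ k6.symm)
      rcases C.sN r k1 with e | e | e | e
      · exact absurd e k3
      · exact absurd e m1
      · rw [← e]; exact k5.symm
      · rcases C.sN r' k2 with e' | e' | e' | e'
        · exact absurd e' k4
        · exact absurd e' m2
        · rw [← e']; exact k6.symm
        · exact absurd (e.trans e'.symm) hr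
    have h2w2 : G.Adj h2 w2 := two w2 p p' hpp hsp hsp' hpg hp'g (hn.c3)
      (hn.c4) h1w2
    have h2w3 : G.Adj h2 w3 := two w3 q q' hqq hsq hsq' hqg hq'g (hm.c3)
      (hm.c4) h1w3
    have h2v : G.Adj v2 h2 := C.n2.c4
    have hcv2 : c ∈ rho G S v2 := by rw [C.e2]; simp
    rcases hc.types C.tri.swap23 C.hs C.a2 C.e2 h2v with
      ⟨z2, w', hz2z, hz2, hw'z, hw'z2, hw's, hng2, hrw'⟩ | ⟨x, y, hx, hy, hng2⟩
    · have nb22 : b ∉ rho G S v2 := by rw [C.e2]; simp [Ne.symm C.tri.ab, C.tri.bc]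
      have nbz2 : b ∉ rho G S z2 := by rw [hz2]; simp [Ne.symm C.tri.ab, C.tri.bc]
      rcases (hng2 w3).1 h2w3 with k | k | k | k
      · exact hrs b (k ▸ hb3)
      · exact nb22 (k ▸ hb3)
      · exact nbz2 (k ▸ hb3)
      · exact hrw' b (k ▸ hb3)
    · have ncx : c ∉ rho G S x := by rw [hx]; simp [Ne.symm C.tri.ac, Ne.symm C.tri.bc]
      have nay : a ∉ rho G S y := by rw [hy]; simp [C.tri.ab, C.tri.ac]
      rcases (hng2 w2).1 h2w2 with k | k | k | k
      · exact hrs a (k ▸ ha2)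
      · exact hw2 k
      · exact ncx (k ▸ hc2)
      · exact nay (k ▸ ha2)
  · have hx2 : x ≠ v2 := by
      rintro rfl
      rcases C.only2 hc C.hs C.a1 hng.c3.symm with k | k
      · exact C.g1 k
      · exact C.d12 k
    have hy3 : y ≠ v3 := by
      rintro rfl
      rcases (C.n3 h1).1 hng.c4.symm with k | k | k | k
      · exact n1b k
      · exact n1c k
      · exact C.g1 k
      · exact C.d13 k
    have e2 : x = w2 := hc.class_uniq C.tri.ac C.e2 hx ew2 hx2 hw2
    have e3 : y = w3 := hc.class_uniq C.tri.bc C.e3 hy ew3 hy3 hw3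
    subst e2
    subst e3
    exact hng

/-- The closed case: the graph is the bipartite complement of the Heawood graph. -/
theorem Cfg2.iso (hG : G.Connected) (hc : Ctx G S1 S)
    (C : Cfg2 G S1 S a b c s g v1 v2 v3 h1 h2 h3) : Nonempty (G ≃g HC) := by
  obtain ⟨w1, hw1, ew1⟩ := hc.class_ex C.tri.ab C.e1
  obtain ⟨w2, hw2, ew2⟩ := hc.class_ex C.tri.ac C.e2
  obtain ⟨w3, hw3, ew3⟩ := hc.class_ex C.tri.bc C.e3
  have m1 : Nb G h1 s v1 w2 w3 := C.companion hc hw1 ew1 hw2 ew2 hw3 ew3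
  have m2 : Nb G h2 s v2 w1 w3 :=
    C.swap23.companion hc hw2 ew2 hw1 ew1 hw3 (by rw [ew3, pair_comm])
  have m3 : Nb G h3 s v3 w1 w2 :=
    C.rot.companion hc hw3 ew3 hw1 (by rw [ew1, pair_comm]) hw2 (by rw [ew2, pair_comm])
  have hrs : ∀ u, u ∉ rho G S s := hc.rho_s C.hs
  have nab := C.tri.ab
  have nac := C.tri.ac
  have nbc := C.tri.bc
  have mema : ∀ x, a ∈ rho G S x → x = v1 ∨ x = w1 ∨ x = v2 ∨ x = w2 := by
    intro x hx
    rcases C.tri.all x (Or.inl hx) with e | e | e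
    · by_cases k : x = v1
      · exact Or.inl k
      · exact Or.inr (Or.inl (hc.class_uniq nab C.e1 e ew1 k hw1))
    · by_cases k : x = v2
      · exact Or.inr (Or.inr (Or.inl k))
      · exact Or.inr (Or.inr (Or.inr (hc.class_uniq nac C.e2 e ew2 k hw2)))
    · rw [e] at hx
      simp [nab, nac] at hx
  have memb : ∀ x, b ∈ rho G S x → x = v1 ∨ x = w1 ∨ x = v3 ∨ x = w3 := by
    intro x hx
    rcases C.tri.all x (Or.inr (Or.inl hx)) with e | e | e
    · by_cases k : x = v1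
      · exact Or.inl k
      · exact Or.inr (Or.inl (hc.class_uniq nab C.e1 e ew1 k hw1))
    · rw [e] at hx
      simp [Ne.symm nab, nbc] at hx
    · by_cases k : x = v3
      · exact Or.inr (Or.inr (Or.inl k))
      · exact Or.inr (Or.inr (Or.inr (hc.class_uniq nbc C.e3 e ew3 k hw3)))
  have memc : ∀ x, c ∈ rho G S x → x = v2 ∨ x = w2 ∨ x = v3 ∨ x = w3 := by
    intro x hx
    rcases C.tri.all x (Or.inr (Or.inr hx)) with e | e | e
    · rw [e] at hx
      simp [Ne.symm nac, Ne.symm nbc] at hx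
    · by_cases k : x = v2
      · exact Or.inl k
      · exact Or.inr (Or.inl (hc.class_uniq nac C.e2 e ew2 k hw2))
    · by_cases k : x = v3
      · exact Or.inr (Or.inr (Or.inl k))
      · exact Or.inr (Or.inr (Or.inr (hc.class_uniq nbc C.e3 e ew3 k hw3)))
  have a1 : a ∈ rho G S v1 := by rw [C.e1]; simp
  have b1 : b ∈ rho G S v1 := by rw [C.e1]; simp
  have a1' : a ∈ rho G S w1 := by rw [ew1]; simp
  have b1' : b ∈ rho G S w1 := by rw [ew1]; simp
  have a2 : a ∈ rho G S v2 := by rw [C.e2]; simp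
  have c2 : c ∈ rho G S v2 := by rw [C.e2]; simp
  have a2' : a ∈ rho G S w2 := by rw [ew2]; simp
  have c2' : c ∈ rho G S w2 := by rw [ew2]; simp
  have b3 : b ∈ rho G S v3 := by rw [C.e3]; simp
  have c3 : c ∈ rho G S v3 := by rw [C.e3]; simp
  have b3' : b ∈ rho G S w3 := by rw [ew3]; simp
  have c3' : c ∈ rho G S w3 := by rw [ew3]; simp
  have nc1 : c ∉ rho G S v1 := by rw [C.e1]; simp [Ne.symm nac, Ne.symm nbc]
  have nc1' : c ∉ rho G S w1 := by rw [ew1]; simp [Ne.symm nac, Ne.symm nbc]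
  have nb2 : b ∉ rho G S v2 := by rw [C.e2]; simp [Ne.symm nab, nbc]
  have nb2' : b ∉ rho G S w2 := by rw [ew2]; simp [Ne.symm nab, nbc]
  have na3 : a ∉ rho G S v3 := by rw [C.e3]; simp [nab, nac]
  have na3' : a ∉ rho G S w3 := by rw [ew3]; simp [nab, nac]
  have Na : Nb G a v1 w1 v2 w2 := by
    intro x
    constructor
    · intro h; exact mema x (mem_rho_of a1 h)
    · rintro (rfl | rfl | rfl | rfl)
      · exact (mem_rho_adj a1).symm
      · exact (mem_rho_adj a1').symm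
      · exact (mem_rho_adj a2).symm
      · exact (mem_rho_adj a2').symm
  have Nbb : Nb G b v1 w1 v3 w3 := by
    intro x
    constructor
    · intro h; exact memb x (mem_rho_of b1 h)
    · rintro (rfl | rfl | rfl | rfl)
      · exact (mem_rho_adj b1).symm
      · exact (mem_rho_adj b1').symm
      · exact (mem_rho_adj b3).symm
      · exact (mem_rho_adj b3').symm
  have Nc : Nb G c v2 w2 v3 w3 := by
    intro x
    constructor
    · intro h; exact memc x (mem_rho_of c2 h)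
    · rintro (rfl | rfl | rfl | rfl)
      · exact (mem_rho_adj c2).symm
      · exact (mem_rho_adj c2').symm
      · exact (mem_rho_adj c3).symm
      · exact (mem_rho_adj c3').symm
  -- distinctness of the points
  have sep : ∀ (u x y : V), u ∈ rho G S x → u ∉ rho G S y → x ≠ y := fun u x y p q e => q (e ▸ p)
  have dsv1 : s ≠ v1 := (sep a v1 s a1 (hrs a)).symm
  have dsw1 : s ≠ w1 := (sep a w1 s a1' (hrs a)).symm
  have dsv2 : s ≠ v2 := (sep a v2 s a2 (hrs a)).symm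
  have dsw2 : s ≠ w2 := (sep a w2 s a2' (hrs a)).symm
  have dsv3 : s ≠ v3 := (sep b v3 s b3 (hrs b)).symm
  have dsw3 : s ≠ w3 := (sep b w3 s b3' (hrs b)).symm
  have d1 : v1 ≠ v2 := sep b _ _ b1 nb2
  have d2 : v1 ≠ w2 := sep b _ _ b1 nb2'
  have d3 : v1 ≠ v3 := sep a _ _ a1 na3
  have d4 : v1 ≠ w3 := sep a _ _ a1 na3'
  have d5 : w1 ≠ v2 := sep b _ _ b1' nb2
  have d6 : w1 ≠ w2 := sep b _ _ b1' nb2'
  have d7 : w1 ≠ v3 := sep a _ _ a1' na3
  have d8 : w1 ≠ w3 := sep a _ _ a1' na3'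
  have d9 : v2 ≠ v3 := sep a _ _ a2 na3
  have d10 : v2 ≠ w3 := sep a _ _ a2 na3'
  have d11 : w2 ≠ v3 := sep a _ _ a2' na3
  have d12 : w2 ≠ w3 := sep a _ _ a2' na3'
  -- distinctness of the blocks
  obtain ⟨ga, gb, gc⟩ := C.not_abc hc C.hs C.sg
  obtain ⟨h1a, h1b, h1c⟩ := C.not_abc hc C.hs C.a1
  obtain ⟨h2a, h2b, h2c⟩ := C.not_abc hc C.hs C.a2
  obtain ⟨h3a, h3b, h3c⟩ := C.not_abc hc C.hs C.a3
  have g1 := C.g1
  have g2 := C.g2
  have g3 := C.g3
  have k12 := C.d12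
  have k13 := C.d13
  have k23 := C.d23
  -- all neighbours of points are blocks
  have blk : ∀ p, (p = s ∨ p = v1 ∨ p = w1 ∨ p = v2 ∨ p = w2 ∨ p = v3 ∨ p = w3) → ∀ x,
      G.Adj p x → (x = a ∨ x = b ∨ x = c ∨ x = g ∨ x = h1 ∨ x = h2 ∨ x = h3) := by
    intro p hp x hx
    have fromS : ∀ y, G.Adj s y → (y = a ∨ y = b ∨ y = c ∨ y = g ∨ y = h1 ∨ y = h2 ∨ y = h3) := by
      intro y hy
      have := C.sN y hy
      clear * - this
      tauto
    rcases hp with rfl | rfl | rfl | rfl | rfl | rfl | rfl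
    · exact fromS x hx
    · have := (C.n1 x).1 hx; clear * - this; tauto
    · obtain ⟨p, p', -, hn, hsp, hsp', -, -⟩ := C.same hc hw1 ew1
      rcases (hn x).1 hx with e | e | e | e
      · clear * - e; tauto
      · clear * - e; tauto
      · rw [e]; exact fromS p hsp
      · rw [e]; exact fromS p' hsp'
    · have := (C.n2 x).1 hx; clear * - this; tauto
    · obtain ⟨p, p', -, hn, hsp, hsp', -, -⟩ := C.swap23.same hc hw2 ew2
      rcases (hn x).1 hx with e | e | e | e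
      · clear * - e; tauto
      · clear * - e; tauto
      · rw [e]; exact fromS p hsp
      · rw [e]; exact fromS p' hsp'
    · have := (C.n3 x).1 hx; clear * - this; tauto
    · obtain ⟨p, p', -, hn, hsp, hsp', -, -⟩ := C.rot.same hc hw3 ew3
      rcases (hn x).1 hx with e | e | e | e
      · clear * - e; tauto
      · clear * - e; tauto
      · rw [e]; exact fromS p hsp
      · rw [e]; exact fromS p' hsp'
  refine iso_explicit hG ?_ ?_ Na Nbb Nc C.nb m1 m2 m3 blk
  · exact inj7 ⟨dsw3, dsw2, dsv3, dsw1, dsv1, dsv2⟩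
      ⟨Ne.symm d12, hw3, Ne.symm d8, Ne.symm d4, Ne.symm d10⟩ ⟨d11, Ne.symm d6, Ne.symm d2, hw2⟩
      ⟨Ne.symm d7, Ne.symm d3, Ne.symm d9⟩ ⟨hw1, d5⟩ d1
  · exact inj7 ⟨Ne.symm ga, Ne.symm h2a, Ne.symm h1a, nac, Ne.symm h3a, nab⟩
      ⟨Ne.symm g2, Ne.symm g1, gc, Ne.symm g3, gb⟩ ⟨Ne.symm k12, h2c, k23, h2b⟩
      ⟨h1c, k13, h1b⟩ ⟨Ne.symm h3c, Ne.symm nbc⟩ h3b

end Pool.Agent.TD4
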