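import Mathlib

set_option autoImplicit false

/-!
Combinatorial core: residual hypergraphs in which no two edges meet in exactly one vertex.
A vertex `v` is given by the set `ρ v` of residual edges containing it.
-/

namespace Pool.Agent.TD4

open Finset

variable {V ι : Type*} [Fintype V] [DecidableEq V] [DecidableEq ι]

/-- The vertices all of whose residual edges (at least one) lie in `A`. -/
def remv (ρ : V → Finset ι) (A : Finset ι) : Finset V :=
  univ.filter (fun v => (ρ v).Nonempty ∧ ρ v ⊆ A)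

theorem mem_remv {ρ : V → Finset ι} {A : Finset ι} {v : V} :
    v ∈ remv ρ A ↔ (ρ v).Nonempty ∧ ρ v ⊆ A := by
  simp [remv]

/-- The local consequences of minimality that are used. -/
structure Tight (ρ : V → Finset ι) : Prop where
  four : ∀ v, ∀ u ∈ ρ v, 4 ≤ (univ.filter (fun x => u ∈ ρ x)).card
  two : ∀ u w, u ≠ w → ∀ v, u ∈ ρ v → w ∈ ρ v → ∃ v', v' ≠ v ∧ u ∈ ρ v' ∧ w ∈ ρ v'
  one : ∀ x, (ρ x).Nonempty → (ρ x).card + (remv ρ (ρ x)).card ≤ 4
  pair : ∀ x y, (ρ x ∪ ρ y).card + (remv ρ (ρ x ∪ ρ y)).card ≤ 9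

variable {ρ : V → Finset ι}

theorem Tight.pair_contra (h : Tight ρ) (x y : V) (A : Finset ι) (B : Finset V)
    (hA : A ⊆ ρ x ∪ ρ y) (hB : ∀ v ∈ B, (ρ v).Nonempty ∧ ρ v ⊆ ρ x ∪ ρ y)
    (hc : 10 ≤ A.card + B.card) : False := by
  have h1 := h.pair x y
  have h2 : A.card ≤ (ρ x ∪ ρ y).card := card_le_card hA
  have h3 : B.card ≤ (remv ρ (ρ x ∪ ρ y)).card :=
    card_le_card (fun v hv => mem_remv.2 (hB v hv))
  omega

theorem Tight.card_le (h : Tight ρ) (x : V) : (ρ x).card ≤ 3 := by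
  rcases (ρ x).eq_empty_or_nonempty with h0 | h0
  · simp [h0]
  · have h1 := h.one x h0
    have h2 : 1 ≤ (remv ρ (ρ x)).card :=
      card_pos.2 ⟨x, mem_remv.2 ⟨h0, Subset.refl _⟩⟩
    omega

theorem Tight.not_sub (h : Tight ρ) {x y : V} (hx : (ρ x).card = 3) (hy : (ρ y).Nonempty)
    (hxy : y ≠ x) : ¬ ρ y ⊆ ρ x := by
  intro hs
  have h0 : (ρ x).Nonempty := card_pos.1 (by omega)
  have h1 := h.one x h0
  have h2 : ({x, y} : Finset V) ⊆ remv ρ (ρ x) := by
    intro z hz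
    rw [mem_insert, mem_singleton] at hz
    rcases hz with rfl | rfl
    · exact mem_remv.2 ⟨h0, Subset.refl _⟩
    · exact mem_remv.2 ⟨hy, hs⟩
  have h3 := card_le_card h2
  rw [card_pair (Ne.symm hxy)] at h3
  omega

/-- Every pair inside a triple lies in another triple. -/
theorem Tight.ext (h : Tight ρ) {x : V} (hx : (ρ x).card = 3) {u w : ι} (hu : u ∈ ρ x)
    (hw : w ∈ ρ x) (huw : u ≠ w) : ∃ y a, a ∉ ρ x ∧ ρ y = {u, w, a} := by
  obtain ⟨y, hyx, huy, hwy⟩ := h.two u w huw x hu hw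
  have h1 := h.not_sub hx ⟨u, huy⟩ hyx
  rw [not_subset] at h1
  obtain ⟨a, hay, hax⟩ := h1
  refine ⟨y, a, hax, ?_⟩
  have hau : u ≠ a := fun e => hax (e ▸ hu)
  have haw : w ≠ a := fun e => hax (e ▸ hw)
  have h2 : ({u, w, a} : Finset ι) ⊆ ρ y := by
    intro z hz
    simp only [mem_insert, mem_singleton] at hz
    rcases hz with rfl | rfl | rfl <;> assumption
  have h3 : ({u, w, a} : Finset ι).card = 3 := card_eq_three.2 ⟨u, w, a, huw, hau, haw, rfl⟩
  exact (eq_of_subset_of_card_le h2 (by rw [h3]; exact h.card_le y)).symm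

theorem ne_of_sep {x y : V} {a : ι} (h1 : a ∈ ρ x) (h2 : a ∉ ρ y) : x ≠ y :=
  fun e => h2 (e ▸ h1)

theorem card4 {α : Type*} [DecidableEq α] {a b c d : α} (h : a ≠ b ∧ a ≠ c ∧ a ≠ d ∧ b ≠ c ∧
    b ≠ d ∧ c ≠ d) : ({a, b, c, d} : Finset α).card = 4 := by
  obtain ⟨h1, h2, h3, h4, h5, h6⟩ := h
  rw [card_insert_of_notMem (by simp [*]), card_insert_of_notMem (by simp [*]),
    card_insert_of_notMem (by simp [*]), card_singleton]

theorem card5 {α : Type*} [DecidableEq α] {a b c d e : α} (h : a ≠ b ∧ a ≠ c ∧ a ≠ d ∧ a ≠ e ∧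
    b ≠ c ∧ b ≠ d ∧ b ≠ e ∧ c ≠ d ∧ c ≠ e ∧ d ≠ e) : ({a, b, c, d, e} : Finset α).card = 5 := by
  obtain ⟨h1, h2, h3, h4, h5, h6, h7, h8, h9, h10⟩ := h
  rw [card_insert_of_notMem (by simp [*]), card_insert_of_notMem (by simp [*]),
    card_insert_of_notMem (by simp [*]), card_insert_of_notMem (by simp [*]), card_singleton]

theorem card6 {α : Type*} [DecidableEq α] {a b c d e f : α} (h : a ≠ b ∧ a ≠ c ∧ a ≠ d ∧ a ≠ e ∧
    a ≠ f ∧ b ≠ c ∧ b ≠ d ∧ b ≠ e ∧ b ≠ f ∧ c ≠ d ∧ c ≠ e ∧ c ≠ f ∧ d ≠ e ∧ d ≠ f ∧ e ≠ f) :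
    ({a, b, c, d, e, f} : Finset α).card = 6 := by
  obtain ⟨h1, h2, h3, h4, h5, h6, h7, h8, h9, h10, h11, h12, h13, h14, h15⟩ := h
  rw [card_insert_of_notMem (by simp [*]), card_insert_of_notMem (by simp [*]),
    card_insert_of_notMem (by simp [*]), card_insert_of_notMem (by simp [*]),
    card_insert_of_notMem (by simp [*]), card_singleton]

/-- No tetrahedron. -/
theorem Tight.no_tetra (h : Tight ρ) {i j k l : ι} (hij : i ≠ j) (hik : i ≠ k) (hil : i ≠ l)
    (hjk : j ≠ k) (hjl : j ≠ l) (hkl : k ≠ l) {x4 x3 x2 x1 : V} (h4 : ρ x4 = {i, j, k})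
    (h3 : ρ x3 = {i, j, l}) (h2 : ρ x2 = {i, k, l}) (h1 : ρ x1 = {j, k, l}) : False := by
  have hl3 : l ∈ ρ x3 := by simp [h3]
  have hfour := h.four x3 l hl3
  have hlt : ({x1, x2, x3} : Finset V).card < (univ.filter (fun x => l ∈ ρ x)).card := by
    have := card_le_three (a := x1) (b := x2) (c := x3)
    omega
  obtain ⟨y, hy1, hy2⟩ := exists_mem_notMem_of_card_lt_card hlt
  have hly : l ∈ ρ y := (mem_filter.1 hy1).2
  simp only [mem_insert, mem_singleton, not_or] at hy2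
  obtain ⟨hyx1, hyx2, hyx3⟩ := hy2
  have hl4 : l ∉ ρ x4 := by simp [h4, Ne.symm hil, Ne.symm hjl, Ne.symm hkl]
  have hyx4 : y ≠ x4 := ne_of_sep hly hl4
  have c3 : (ρ x3).card = 3 := by rw [h3]; exact card_eq_three.2 ⟨i, j, l, hij, hil, hjl, rfl⟩
  have c2 : (ρ x2).card = 3 := by rw [h2]; exact card_eq_three.2 ⟨i, k, l, hik, hil, hkl, rfl⟩
  have c1 : (ρ x1).card = 3 := by rw [h1]; exact card_eq_three.2 ⟨j, k, l, hjk, hjl, hkl, rfl⟩
  have n3 := h.not_sub c3 ⟨l, hly⟩ hyx3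
  have n2 := h.not_sub c2 ⟨l, hly⟩ hyx2
  have n1 := h.not_sub c1 ⟨l, hly⟩ hyx1
  have hq : ∃ q ∈ ρ y, q ≠ i ∧ q ≠ j ∧ q ≠ k ∧ q ≠ l := by
    by_contra hcon
    push Not at hcon
    have hall : i ∈ ρ y ∧ j ∈ ρ y ∧ k ∈ ρ y := by
      refine ⟨?_, ?_, ?_⟩
      · by_contra hi
        apply n1
        intro z hz
        rw [h1]
        simp only [mem_insert, mem_singleton]
        have hzi : z ≠ i := fun e => hi (e ▸ hz)
        by_cases e1 : z = j
        · exact Or.inl e1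
        by_cases e2 : z = k
        · exact Or.inr (Or.inl e2)
        exact Or.inr (Or.inr (hcon z hz hzi e1 e2))
      · by_contra hi
        apply n2
        intro z hz
        rw [h2]
        simp only [mem_insert, mem_singleton]
        have hzi : z ≠ j := fun e => hi (e ▸ hz)
        by_cases e1 : z = i
        · exact Or.inl e1
        by_cases e2 : z = k
        · exact Or.inr (Or.inl e2)
        exact Or.inr (Or.inr (hcon z hz e1 hzi e2))
      · by_contra hi
        apply n3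
        intro z hz
        rw [h3]
        simp only [mem_insert, mem_singleton]
        have hzi : z ≠ k := fun e => hi (e ▸ hz)
        by_cases e1 : z = i
        · exact Or.inl e1
        by_cases e2 : z = j
        · exact Or.inr (Or.inl e2)
        exact Or.inr (Or.inr (hcon z hz e1 e2 hzi))
    have hs : ({i, j, k, l} : Finset ι) ⊆ ρ y := by
      intro z hz
      simp only [mem_insert, mem_singleton] at hz
      obtain ⟨q1, q2, q3⟩ := hall
      rcases hz with rfl | rfl | rfl | rfl <;> assumption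
    have := card_le_card hs
    rw [card4 ⟨hij, hik, hil, hjk, hjl, hkl⟩] at this
    have := h.card_le y
    omega
  obtain ⟨q, hqy, hqi, hqj, hqk, hql⟩ := hq
  refine h.pair_contra x4 y {i, j, k, l, q} {x4, x3, x2, x1, y} ?_ ?_ ?_
  · intro z hz
    simp only [mem_insert, mem_singleton] at hz
    rw [mem_union, h4]
    rcases hz with rfl | rfl | rfl | rfl | rfl
    · simp
    · simp
    · simp
    · exact Or.inr hly
    · exact Or.inr hqy
  · have hsub : ∀ s : Finset ι, s ⊆ {i, j, k, l} → s ⊆ ρ x4 ∪ ρ y := by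
      intro s hs z hz
      have := hs hz
      simp only [mem_insert, mem_singleton] at this
      rw [mem_union, h4]
      rcases this with rfl | rfl | rfl | rfl
      · simp
      · simp
      · simp
      · exact Or.inr hly
    intro v hv
    simp only [mem_insert, mem_singleton] at hv
    rcases hv with rfl | rfl | rfl | rfl | rfl
    · exact ⟨⟨i, by simp [h4]⟩, subset_union_left⟩
    · refine ⟨⟨i, by simp [h3]⟩, hsub _ ?_⟩
      rw [h3]; intro z; simp only [mem_insert, mem_singleton]; tauto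
    · refine ⟨⟨i, by simp [h2]⟩, hsub _ ?_⟩
      rw [h2]; intro z; simp only [mem_insert, mem_singleton]; tauto
    · refine ⟨⟨j, by simp [h1]⟩, hsub _ ?_⟩
      rw [h1]; intro z; simp only [mem_insert, mem_singleton]; tauto
    · exact ⟨⟨l, hly⟩, subset_union_right⟩
  · rw [card5 ⟨hij, hik, hil, Ne.symm hqi, hjk, hjl, Ne.symm hqj, hkl, Ne.symm hqk, Ne.symm hql⟩]
    have e43 : x4 ≠ x3 := (ne_of_sep hl3 hl4).symm
    have e42 : x4 ≠ x2 := (ne_of_sep (ρ := ρ) (a := l) (by simp [h2]) hl4).symm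
    have e41 : x4 ≠ x1 := (ne_of_sep (ρ := ρ) (a := l) (by simp [h1]) hl4).symm
    have e32 : x3 ≠ x2 := ne_of_sep (ρ := ρ) (a := j) (by simp [h3]) (by simp [h2, Ne.symm hij, hjk, hjl])
    have e31 : x3 ≠ x1 := ne_of_sep (ρ := ρ) (a := i) (by simp [h3]) (by simp [h1, hij, hik, hil])
    have e21 : x2 ≠ x1 := ne_of_sep (ρ := ρ) (a := i) (by simp [h2]) (by simp [h1, hij, hik, hil])
    rw [card5 ⟨e43, e42, e41, hyx4.symm, e32, e31, Ne.symm hyx3, e21, Ne.symm hyx2, Ne.symm hyx1⟩]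

/-- No triangle in a link. -/
theorem Tight.no_link (h : Tight ρ) {i j k l : ι} (hij : i ≠ j) (hik : i ≠ k) (hil : i ≠ l)
    (hjk : j ≠ k) (hjl : j ≠ l) (hkl : k ≠ l) {x4 x3 x2 : V} (h4 : ρ x4 = {i, j, k})
    (h3 : ρ x3 = {i, j, l}) (h2 : ρ x2 = {i, k, l}) : False := by
  have c4 : (ρ x4).card = 3 := by rw [h4]; exact card_eq_three.2 ⟨i, j, k, hij, hik, hjk, rfl⟩
  have hj4 : j ∈ ρ x4 := by rw [h4]; simp
  have hk4 : k ∈ ρ x4 := by rw [h4]; simp
  obtain ⟨y1, x, hx4, hy1⟩ := h.ext c4 hj4 hk4 hjk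
  rw [h4] at hx4
  simp only [mem_insert, mem_singleton, not_or] at hx4
  obtain ⟨hxi, hxj, hxk⟩ := hx4
  have hxl : x ≠ l := by
    rintro rfl
    exact h.no_tetra hij hik hil hjk hjl hkl h4 h3 h2 hy1
  have cy1 : (ρ y1).card = 3 := by
    rw [hy1]; exact card_eq_three.2 ⟨j, k, x, hjk, Ne.symm hxj, Ne.symm hxk, rfl⟩
  have hj5 : j ∈ ρ y1 := by rw [hy1]; simp
  have hx5 : x ∈ ρ y1 := by rw [hy1]; simp
  obtain ⟨y2, s, hs, hy2⟩ := h.ext cy1 hj5 hx5 (Ne.symm hxj)
  rw [hy1] at hs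
  simp only [mem_insert, mem_singleton, not_or] at hs
  obtain ⟨hsj, hsk, hsx⟩ := hs
  have e43 : x4 ≠ x3 := ne_of_sep (ρ := ρ) (a := k) (by simp [h4]) (by simp [h3, hkl, Ne.symm hik, Ne.symm hjk])
  have e42 : x4 ≠ x2 := ne_of_sep (ρ := ρ) (a := j) (by simp [h4]) (by simp [h2, hjl, Ne.symm hij, hjk])
  have e32 : x3 ≠ x2 := ne_of_sep (ρ := ρ) (a := j) (by simp [h3]) (by simp [h2, hjl, Ne.symm hij, hjk])
  have hx4' : x ∉ ρ x4 := by simp [h4, hxi, hxj, hxk]
  have hx3' : x ∉ ρ x3 := by simp [h3, hxi, hxj, hxl]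
  have hx2' : x ∉ ρ x2 := by simp [h2, hxi, hxk, hxl]
  have hxy1 : x ∈ ρ y1 := by simp [hy1]
  have hxy2 : x ∈ ρ y2 := by simp [hy2]
  have e12 : y1 ≠ y2 := ne_of_sep (ρ := ρ) (a := k) (by simp [hy1]) (by
    simp [hy2, Ne.symm hjk, Ne.symm hxk, Ne.symm hsk])
  by_cases hcase : s = i ∨ s = l
  · refine h.pair_contra x3 y1 {i, j, l, k, x} {x4, x3, x2, y1, y2} ?_ ?_ ?_
    · intro z hz
      simp only [mem_insert, mem_singleton] at hz
      rw [mem_union, h3, hy1]
      simp only [mem_insert, mem_singleton]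
      tauto
    · intro v hv
      simp only [mem_insert, mem_singleton] at hv
      have hsub : ∀ z, (z = i ∨ z = j ∨ z = l ∨ z = k ∨ z = x) → z ∈ ρ x3 ∪ ρ y1 := by
        intro z hz
        rw [mem_union, h3, hy1]
        simp only [mem_insert, mem_singleton]
        tauto
      rcases hv with rfl | rfl | rfl | rfl | rfl
      · refine ⟨⟨i, by simp [h4]⟩, ?_⟩
        intro z hz; rw [h4] at hz; simp only [mem_insert, mem_singleton] at hz
        exact hsub z (by tauto)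
      · exact ⟨⟨i, by simp [h3]⟩, subset_union_left⟩
      · refine ⟨⟨i, by simp [h2]⟩, ?_⟩
        intro z hz; rw [h2] at hz; simp only [mem_insert, mem_singleton] at hz
        exact hsub z (by tauto)
      · exact ⟨⟨j, by simp [hy1]⟩, subset_union_right⟩
      · refine ⟨⟨j, by simp [hy2]⟩, ?_⟩
        intro z hz; rw [hy2] at hz; simp only [mem_insert, mem_singleton] at hz
        refine hsub z ?_
        rcases hz with rfl | rfl | rfl
        · tauto
        · tauto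
        · rcases hcase with e | e <;> tauto
    · rw [card5 ⟨hij, hil, hik, Ne.symm hxi, hjl, hjk, Ne.symm hxj, Ne.symm hkl, Ne.symm hxl,
        Ne.symm hxk⟩, card5 ⟨e43, e42, (ne_of_sep hxy1 hx4').symm, (ne_of_sep hxy2 hx4').symm, e32,
        (ne_of_sep hxy1 hx3').symm, (ne_of_sep hxy2 hx3').symm, (ne_of_sep hxy1 hx2').symm,
        (ne_of_sep hxy2 hx2').symm, e12⟩]
  · push Not at hcase
    obtain ⟨hsi, hsl⟩ := hcase
    refine h.pair_contra x2 y2 {i, k, l, j, x, s} {x2, y2, x4, x3} ?_ ?_ ?_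
    · intro z hz
      simp only [mem_insert, mem_singleton] at hz
      rw [mem_union, h2, hy2]
      simp only [mem_insert, mem_singleton]
      tauto
    · intro v hv
      simp only [mem_insert, mem_singleton] at hv
      have hsub : ∀ z, (z = i ∨ z = k ∨ z = l ∨ z = j) → z ∈ ρ x2 ∪ ρ y2 := by
        intro z hz
        rw [mem_union, h2, hy2]
        simp only [mem_insert, mem_singleton]
        tauto
      rcases hv with rfl | rfl | rfl | rfl
      · exact ⟨⟨i, by simp [h2]⟩, subset_union_left⟩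
      · exact ⟨⟨j, by simp [hy2]⟩, subset_union_right⟩
      · refine ⟨⟨i, by simp [h4]⟩, ?_⟩
        intro z hz; rw [h4] at hz; simp only [mem_insert, mem_singleton] at hz
        exact hsub z (by tauto)
      · refine ⟨⟨i, by simp [h3]⟩, ?_⟩
        intro z hz; rw [h3] at hz; simp only [mem_insert, mem_singleton] at hz
        exact hsub z (by tauto)
    · rw [card6 ⟨hik, hil, hij, Ne.symm hxi, Ne.symm hsi, hkl, Ne.symm hjk, Ne.symm hxk,
        Ne.symm hsk, Ne.symm hjl, Ne.symm hxl, Ne.symm hsl, Ne.symm hxj, Ne.symm hsj, Ne.symm hsx⟩,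
        card4 ⟨(ne_of_sep hxy2 hx2').symm, e42.symm, e32.symm, ne_of_sep hxy2 hx4',
          ne_of_sep hxy2 hx3', e43⟩]

end Pool.Agent.TD4
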