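import Pool.Agent.TD4.Core

set_option autoImplicit false

namespace Pool.Agent.TD4

open Finset

variable {V ι : Type*} [Fintype V] [DecidableEq V] [DecidableEq ι]

variable {ρ : V → Finset ι}

/-- There are no triples. -/
theorem Tight.no_triple (h : Tight ρ) (x : V) : (ρ x).card ≠ 3 := by
  intro hx
  obtain ⟨i, j, k, hij, hik, hjk, h0⟩ := card_eq_three.1 hx
  have mi : i ∈ ρ x := by rw [h0]; simp
  have mj : j ∈ ρ x := by rw [h0]; simp
  have mk : k ∈ ρ x := by rw [h0]; simp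
  obtain ⟨y1, a, ha, h1⟩ := h.ext hx mi mj hij
  rw [h0] at ha
  simp only [mem_insert, mem_singleton, not_or] at ha
  obtain ⟨hai, haj, hak⟩ := ha
  have c1 : (ρ y1).card = 3 := by
    rw [h1]; exact card_eq_three.2 ⟨i, j, a, hij, Ne.symm hai, Ne.symm haj, rfl⟩
  have m1i : i ∈ ρ y1 := by rw [h1]; simp
  have m1j : j ∈ ρ y1 := by rw [h1]; simp
  have m1a : a ∈ ρ y1 := by rw [h1]; simp
  obtain ⟨y2, p, hp, h2⟩ := h.ext c1 m1i m1a (Ne.symm hai)
  rw [h1] at hp
  simp only [mem_insert, mem_singleton, not_or] at hp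
  obtain ⟨hpi, hpj, hpa⟩ := hp
  have hpk : p ≠ k := by
    rintro rfl
    exact h.no_link hij hik (Ne.symm hai) hjk (Ne.symm haj) (Ne.symm hak) h0 h1
      (by rw [h2, pair_comm])
  have c2 : (ρ y2).card = 3 := by
    rw [h2]; exact card_eq_three.2 ⟨i, a, p, Ne.symm hai, Ne.symm hpi, Ne.symm hpa, rfl⟩
  have m2i : i ∈ ρ y2 := by rw [h2]; simp
  have m2a : a ∈ ρ y2 := by rw [h2]; simp
  have m2p : p ∈ ρ y2 := by rw [h2]; simp
  obtain ⟨y3, s, hs, h3⟩ := h.ext c2 m2a m2p (Ne.symm hpa)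
  rw [h2] at hs
  simp only [mem_insert, mem_singleton, not_or] at hs
  obtain ⟨hsi, hsa, hsp⟩ := hs
  have m3a : a ∈ ρ y3 := by rw [h3]; simp
  have m3p : p ∈ ρ y3 := by rw [h3]; simp
  have m3s : s ∈ ρ y3 := by rw [h3]; simp
  have exy1 : x ≠ y1 := (ne_of_sep m1a (by rw [h0]; simp [hai, haj, hak])).symm
  have exy2 : x ≠ y2 := (ne_of_sep m2a (by rw [h0]; simp [hai, haj, hak])).symm
  have exy3 : x ≠ y3 := (ne_of_sep m3a (by rw [h0]; simp [hai, haj, hak])).symm
  have e12 : y1 ≠ y2 := (ne_of_sep m2p (by rw [h1]; simp [hpi, hpj, hpa])).symm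
  have e13 : y1 ≠ y3 := (ne_of_sep m3p (by rw [h1]; simp [hpi, hpj, hpa])).symm
  have e23 : y2 ≠ y3 := (ne_of_sep m3s (by rw [h2]; simp [hsi, hsa, hsp])).symm
  have hsj : s ≠ j := by
    rintro rfl
    refine h.no_link (i := a) (j := i) (k := s) (l := p) hai haj (Ne.symm hpa) hij
      (Ne.symm hpi) (Ne.symm hpj) (x4 := y1) (x3 := y2) (x2 := y3) ?_ ?_ ?_
    · rw [h1]; ext z; simp only [mem_insert, mem_singleton]; tauto
    · rw [h2]; ext z; simp only [mem_insert, mem_singleton]; tauto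
    · rw [h3]; ext z; simp only [mem_insert, mem_singleton]; tauto
  have hsk : s = k := by
    by_contra hsk
    refine h.pair_contra x y3 {i, j, k, a, p, s} {x, y3, y1, y2} ?_ ?_ ?_
    · intro z hz
      simp only [mem_insert, mem_singleton] at hz
      rw [mem_union, h0, h3]
      simp only [mem_insert, mem_singleton]
      tauto
    · have hsub : ∀ z, (z = i ∨ z = j ∨ z = a ∨ z = p) → z ∈ ρ x ∪ ρ y3 := by
        intro z hz
        rw [mem_union, h0, h3]
        simp only [mem_insert, mem_singleton]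
        tauto
      intro v hv
      simp only [mem_insert, mem_singleton] at hv
      rcases hv with rfl | rfl | rfl | rfl
      · exact ⟨⟨i, mi⟩, subset_union_left⟩
      · exact ⟨⟨a, m3a⟩, subset_union_right⟩
      · refine ⟨⟨i, m1i⟩, ?_⟩
        intro z hz; rw [h1] at hz; simp only [mem_insert, mem_singleton] at hz
        exact hsub z (by tauto)
      · refine ⟨⟨i, m2i⟩, ?_⟩
        intro z hz; rw [h2] at hz; simp only [mem_insert, mem_singleton] at hz
        exact hsub z (by tauto)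
    · rw [card6 ⟨hij, hik, Ne.symm hai, Ne.symm hpi, Ne.symm hsi, hjk, Ne.symm haj, Ne.symm hpj,
        Ne.symm hsj, Ne.symm hak, Ne.symm hpk, fun e => hsk e.symm, Ne.symm hpa, Ne.symm hsa,
        Ne.symm hsp⟩, card4 ⟨exy3, exy1, exy2, e13.symm, e23.symm, e12⟩]
  subst hsk
  -- now ρ y3 = {a, p, k}
  obtain ⟨y4, t, ht, h4⟩ := h.ext hx mj mk hjk
  rw [h0] at ht
  simp only [mem_insert, mem_singleton, not_or] at ht
  obtain ⟨hti, htj, hts⟩ := ht
  have m4j : j ∈ ρ y4 := by rw [h4]; simp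
  have m4s : s ∈ ρ y4 := by rw [h4]; simp
  have m4t : t ∈ ρ y4 := by rw [h4]; simp
  have exy4 : x ≠ y4 := (ne_of_sep m4t (by rw [h0]; simp [hti, htj, hts])).symm
  have e14 : y1 ≠ y4 := ne_of_sep m1i (by
    rw [h4]; simp [hij, Ne.symm hsi, Ne.symm hti])
  have e24 : y2 ≠ y4 := ne_of_sep m2i (by
    rw [h4]; simp [hij, Ne.symm hsi, Ne.symm hti])
  have hta : t ≠ a := by
    rintro rfl
    refine h.no_link (i := j) (j := i) (k := s) (l := t) (Ne.symm hij) hjk (Ne.symm htj) hik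
      (Ne.symm hti) hsa (x4 := x) (x3 := y1) (x2 := y4) ?_ ?_ ?_
    · rw [h0]; ext z; simp only [mem_insert, mem_singleton]; tauto
    · rw [h1]; ext z; simp only [mem_insert, mem_singleton]; tauto
    · rw [h4]
  have htp : t = p := by
    by_contra htp
    refine h.pair_contra y2 y4 {i, a, p, j, s, t} {y2, y4, x, y1} ?_ ?_ ?_
    · intro z hz
      simp only [mem_insert, mem_singleton] at hz
      rw [mem_union, h2, h4]
      simp only [mem_insert, mem_singleton]
      tauto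
    · have hsub : ∀ z, (z = i ∨ z = j ∨ z = a ∨ z = s) → z ∈ ρ y2 ∪ ρ y4 := by
        intro z hz
        rw [mem_union, h2, h4]
        simp only [mem_insert, mem_singleton]
        tauto
      intro v hv
      simp only [mem_insert, mem_singleton] at hv
      rcases hv with rfl | rfl | rfl | rfl
      · exact ⟨⟨i, m2i⟩, subset_union_left⟩
      · exact ⟨⟨j, m4j⟩, subset_union_right⟩
      · refine ⟨⟨i, mi⟩, ?_⟩
        intro z hz; rw [h0] at hz; simp only [mem_insert, mem_singleton] at hz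
        exact hsub z (by tauto)
      · refine ⟨⟨i, m1i⟩, ?_⟩
        intro z hz; rw [h1] at hz; simp only [mem_insert, mem_singleton] at hz
        exact hsub z (by tauto)
    · rw [card6 ⟨Ne.symm hai, Ne.symm hpi, hij, hik, Ne.symm hti, Ne.symm hpa, haj, hak,
        Ne.symm hta, hpj, hpk, fun e => htp e.symm, hjk, Ne.symm htj, Ne.symm hts⟩,
        card4 ⟨e24, exy2.symm, e12.symm, exy4.symm, e14.symm, exy1⟩]
  subst htp
  have e34 : y3 ≠ y4 := ne_of_sep m3a (by
    rw [h4]; simp [haj, hak, Ne.symm hta])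
  refine h.pair_contra x y2 {i, j, s, a, t} {x, y1, y2, y3, y4} ?_ ?_ ?_
  · intro z hz
    simp only [mem_insert, mem_singleton] at hz
    rw [mem_union, h0, h2]
    simp only [mem_insert, mem_singleton]
    tauto
  · have hsub : ∀ z, (z = i ∨ z = j ∨ z = s ∨ z = a ∨ z = t) → z ∈ ρ x ∪ ρ y2 := by
      intro z hz
      rw [mem_union, h0, h2]
      simp only [mem_insert, mem_singleton]
      tauto
    intro v hv
    simp only [mem_insert, mem_singleton] at hv
    rcases hv with rfl | rfl | rfl | rfl | rfl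
    · exact ⟨⟨i, mi⟩, subset_union_left⟩
    · refine ⟨⟨i, m1i⟩, ?_⟩
      intro z hz; rw [h1] at hz; simp only [mem_insert, mem_singleton] at hz
      exact hsub z (by tauto)
    · exact ⟨⟨i, m2i⟩, subset_union_right⟩
    · refine ⟨⟨a, m3a⟩, ?_⟩
      intro z hz; rw [h3] at hz; simp only [mem_insert, mem_singleton] at hz
      exact hsub z (by tauto)
    · refine ⟨⟨j, m4j⟩, ?_⟩
      intro z hz; rw [h4] at hz; simp only [mem_insert, mem_singleton] at hz
      exact hsub z (by tauto)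
  · rw [card5 ⟨hij, hik, Ne.symm hai, Ne.symm hti, hjk, Ne.symm haj, Ne.symm htj, Ne.symm hak,
      Ne.symm hts, Ne.symm hta⟩, card5 ⟨exy1, exy2, exy3, exy4, e12, e13, e14, e23, e24, e34⟩]

theorem Tight.card_le_two (h : Tight ρ) (x : V) : (ρ x).card ≤ 2 := by
  have h1 := h.card_le x
  have h2 := h.no_triple x
  omega

/-- Two residual edges are adjacent if some vertex lies in both. -/
theorem Tight.pair_eq (h : Tight ρ) {x : V} {u w : ι} (huw : u ≠ w) (hu : u ∈ ρ x)
    (hw : w ∈ ρ x) : ρ x = {u, w} := by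
  symm
  apply eq_of_subset_of_card_le
  · intro z hz
    simp only [mem_insert, mem_singleton] at hz
    rcases hz with rfl | rfl <;> assumption
  · rw [card_pair huw]; exact h.card_le_two x

/-- The vertices with residual set exactly `{u, w}`: exactly two. -/
theorem Tight.class_two (h : Tight ρ) {x : V} {u w : ι} (huw : u ≠ w) (hx : ρ x = {u, w}) :
    (univ.filter (fun z => ρ z = {u, w})).card = 2 ∧ ∀ z, ρ z ≠ {u} := by
  have hu : u ∈ ρ x := by rw [hx]; simp
  have hw : w ∈ ρ x := by rw [hx]; simp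
  obtain ⟨y, hyx, huy, hwy⟩ := h.two u w huw x hu hw
  have hy := h.pair_eq huw huy hwy
  have h1 := h.one x ⟨u, hu⟩
  have hc : (ρ x).card = 2 := by rw [hx]; exact card_pair huw
  have hrem : (remv ρ (ρ x)).card ≤ 2 := by omega
  have hsub : ({x, y} : Finset V) ⊆ univ.filter (fun z => ρ z = {u, w}) := by
    intro z hz
    simp only [mem_insert, mem_singleton] at hz
    rcases hz with rfl | rfl
    · simp [hx]
    · simp [hy]
  have hsub2 : univ.filter (fun z => ρ z = {u, w}) ⊆ remv ρ (ρ x) := by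
    intro z hz
    have := (mem_filter.1 hz).2
    exact mem_remv.2 ⟨⟨u, by rw [this]; simp⟩, by rw [this, hx]⟩
  have hc2 : ({x, y} : Finset V).card = 2 := card_pair (Ne.symm hyx)
  refine ⟨?_, ?_⟩
  · have a1 := card_le_card hsub
    have a2 := card_le_card hsub2
    omega
  · intro z hz
    have hzx : z ≠ x := by
      rintro rfl
      rw [hz] at hw
      exact huw (mem_singleton.1 hw).symm
    have hzy : z ≠ y := by
      rintro rfl
      rw [hz] at hwy
      exact huw (mem_singleton.1 hwy).symm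
    have hsub3 : ({z, x, y} : Finset V) ⊆ remv ρ (ρ x) := by
      intro v hv
      simp only [mem_insert, mem_singleton] at hv
      rcases hv with rfl | rfl | rfl
      · exact mem_remv.2 ⟨⟨u, by rw [hz]; simp⟩, by rw [hz]; simpa using hu⟩
      · exact mem_remv.2 ⟨⟨u, hu⟩, Subset.refl _⟩
      · exact mem_remv.2 ⟨⟨u, huy⟩, by rw [hy, hx]⟩
    have a3 := card_le_card hsub3
    rw [card_eq_three.2 ⟨z, x, y, hzx, hzy, Ne.symm hyx, rfl⟩] at a3
    omega

/-- Every residual edge has two different neighbours. -/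
theorem Tight.two_nbrs (h : Tight ρ) {x : V} {u : ι} (hu : u ∈ ρ x) :
    ∃ w1 w2 y1 y2, u ≠ w1 ∧ u ≠ w2 ∧ w1 ≠ w2 ∧ ρ y1 = {u, w1} ∧ ρ y2 = {u, w2} := by
  -- first neighbour
  have hfour := h.four x u hu
  have hex : ∃ y, u ∈ ρ y ∧ ρ y ≠ {u} := by
    by_contra hcon
    push Not at hcon
    have hx1 := hcon x hu
    have h1 := h.one x ⟨u, hu⟩
    have hsub : univ.filter (fun z => u ∈ ρ z) ⊆ remv ρ (ρ x) := by
      intro z hz
      have hz' := (mem_filter.1 hz).2
      exact mem_remv.2 ⟨⟨u, hz'⟩, by rw [hcon z hz', hx1]⟩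
    have := card_le_card hsub
    have hc : (ρ x).card = 1 := by rw [hx1]; simp
    omega
  obtain ⟨y1, hy1, hy1'⟩ := hex
  obtain ⟨w1, hw1, hw1u⟩ : ∃ w1 ∈ ρ y1, w1 ≠ u := by
    by_contra hcon
    push Not at hcon
    apply hy1'
    ext z
    rw [mem_singleton]
    exact ⟨fun hz => hcon z hz, fun e => e ▸ hy1⟩
  have e1 := h.pair_eq (Ne.symm hw1u) hy1 hw1
  obtain ⟨hcl, hns⟩ := h.class_two (Ne.symm hw1u) e1
  have hlt : (univ.filter (fun z => ρ z = {u, w1})).card
      < (univ.filter (fun x => u ∈ ρ x)).card := by omega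
  obtain ⟨y2, hy2, hy2'⟩ := exists_mem_notMem_of_card_lt_card hlt
  have hu2 : u ∈ ρ y2 := (mem_filter.1 hy2).2
  have hne2 : ρ y2 ≠ {u, w1} := fun e => hy2' (mem_filter.2 ⟨mem_univ _, e⟩)
  obtain ⟨w2, hw2, hw2u⟩ : ∃ w2 ∈ ρ y2, w2 ≠ u := by
    by_contra hcon
    push Not at hcon
    apply hns y2
    ext z
    rw [mem_singleton]
    exact ⟨fun hz => hcon z hz, fun e => e ▸ hu2⟩
  have e2 := h.pair_eq (Ne.symm hw2u) hu2 hw2
  refine ⟨w1, w2, y1, y2, Ne.symm hw1u, Ne.symm hw2u, ?_, e1, e2⟩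
  rintro rfl
  exact hne2 e2

/-- No path with four residual edges. -/
theorem Tight.no_path (h : Tight ρ) {a b c d : ι} (hab : a ≠ b) (hac : a ≠ c) (had : a ≠ d)
    (hbc : b ≠ c) (hbd : b ≠ d) (hcd : c ≠ d) {x y z : V} (hx : ρ x = {a, b}) (hy : ρ y = {b, c})
    (hz : ρ z = {c, d}) : False := by
  obtain ⟨x', hx'x, hax', hbx'⟩ := h.two a b hab x (by rw [hx]; simp) (by rw [hx]; simp)
  obtain ⟨y', hy'y, hby', hcy'⟩ := h.two b c hbc y (by rw [hy]; simp) (by rw [hy]; simp)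
  obtain ⟨z', hz'z, hcz', hdz'⟩ := h.two c d hcd z (by rw [hz]; simp) (by rw [hz]; simp)
  have ex' := h.pair_eq hab hax' hbx'
  have ey' := h.pair_eq hbc hby' hcy'
  have ez' := h.pair_eq hcd hcz' hdz'
  have s1 : ∀ p q : V, ρ p = {a, b} → ρ q = {b, c} → p ≠ q := fun p q hp hq =>
    ne_of_sep (ρ := ρ) (a := a) (by rw [hp]; simp) (by rw [hq]; simp [hab, hac])
  have s2 : ∀ p q : V, ρ p = {a, b} → ρ q = {c, d} → p ≠ q := fun p q hp hq =>
    ne_of_sep (ρ := ρ) (a := a) (by rw [hp]; simp) (by rw [hq]; simp [hac, had])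
  have s3 : ∀ p q : V, ρ p = {b, c} → ρ q = {c, d} → p ≠ q := fun p q hp hq =>
    ne_of_sep (ρ := ρ) (a := b) (by rw [hp]; simp) (by rw [hq]; simp [hbc, hbd])
  refine h.pair_contra x z {a, b, c, d} {x, x', y, y', z, z'} ?_ ?_ ?_
  · intro v hv
    simp only [mem_insert, mem_singleton] at hv
    rw [mem_union, hx, hz]
    simp only [mem_insert, mem_singleton]
    tauto
  · have hsub : ∀ v, (v = a ∨ v = b ∨ v = c ∨ v = d) → v ∈ ρ x ∪ ρ z := by
      intro v hv
      rw [mem_union, hx, hz]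
      simp only [mem_insert, mem_singleton]
      tauto
    have hs : ∀ p : V, (ρ p = {a, b} ∨ ρ p = {b, c} ∨ ρ p = {c, d}) →
        (ρ p).Nonempty ∧ ρ p ⊆ ρ x ∪ ρ z := by
      intro p hp
      rcases hp with e | e | e
      · refine ⟨⟨a, by rw [e]; simp⟩, ?_⟩
        intro v hv; rw [e] at hv; simp only [mem_insert, mem_singleton] at hv
        exact hsub v (by tauto)
      · refine ⟨⟨b, by rw [e]; simp⟩, ?_⟩
        intro v hv; rw [e] at hv; simp only [mem_insert, mem_singleton] at hv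
        exact hsub v (by tauto)
      · refine ⟨⟨c, by rw [e]; simp⟩, ?_⟩
        intro v hv; rw [e] at hv; simp only [mem_insert, mem_singleton] at hv
        exact hsub v (by tauto)
    intro v hv
    simp only [mem_insert, mem_singleton] at hv
    apply hs
    rcases hv with rfl | rfl | rfl | rfl | rfl | rfl
    · exact Or.inl hx
    · exact Or.inl ex'
    · exact Or.inr (Or.inl hy)
    · exact Or.inr (Or.inl ey')
    · exact Or.inr (Or.inr hz)
    · exact Or.inr (Or.inr ez')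
  · rw [card4 ⟨hab, hac, had, hbc, hbd, hcd⟩, card6 ⟨Ne.symm hx'x, s1 _ _ hx hy, s1 _ _ hx ey',
      s2 _ _ hx hz, s2 _ _ hx ez', s1 _ _ ex' hy, s1 _ _ ex' ey', s2 _ _ ex' hz, s2 _ _ ex' ez',
      Ne.symm hy'y, s3 _ _ hy hz, s3 _ _ hy ez', s3 _ _ ey' hz, s3 _ _ ey' ez', Ne.symm hz'z⟩]

/-- The residual edges come in triangles with all connections doubled. -/
theorem Tight.triangle (h : Tight ρ) {x : V} {u : ι} (hu : u ∈ ρ x) :
    ∃ w1 w2 y1 y2 y3, u ≠ w1 ∧ u ≠ w2 ∧ w1 ≠ w2 ∧ ρ y1 = {u, w1} ∧ ρ y2 = {u, w2} ∧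
      ρ y3 = {w1, w2} ∧ ∀ z, (u ∈ ρ z ∨ w1 ∈ ρ z ∨ w2 ∈ ρ z) →
        ρ z = {u, w1} ∨ ρ z = {u, w2} ∨ ρ z = {w1, w2} := by
  obtain ⟨w1, w2, y1, y2, h1, h2, h12, e1, e2⟩ := h.two_nbrs hu
  have key : ∀ (a b c : ι) (p q : V), a ≠ b → a ≠ c → b ≠ c → ρ p = {a, b} → ρ q = {a, c} →
      ∃ r, ρ r = {b, c} := by
    intro a b c p q hab hac hbc hp hq
    have hb : b ∈ ρ p := by rw [hp]; simp
    obtain ⟨v1, v2, z1, z2, k1, k2, k12, f1, f2⟩ := h.two_nbrs hb
    obtain ⟨v, z, kv, kva, f⟩ : ∃ v z, b ≠ v ∧ v ≠ a ∧ ρ z = {b, v} := by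
      by_cases hv1 : v1 = a
      · exact ⟨v2, z2, k2, fun e => k12 (by rw [hv1, e]), f2⟩
      · exact ⟨v1, z1, k1, hv1, f1⟩
    by_cases hvc : v = c
    · exact ⟨z, by rw [f, hvc]⟩
    · exfalso
      refine h.no_path (a := c) (b := a) (c := b) (d := v) (Ne.symm hac) (Ne.symm hbc)
        (fun e => hvc e.symm) hab (Ne.symm kva) kv (x := q) (y := p) (z := z) ?_ hp f
      rw [hq, pair_comm]
  obtain ⟨y3, e3⟩ := key u w1 w2 y1 y2 h1 h2 h12 e1 e2
  refine ⟨w1, w2, y1, y2, y3, h1, h2, h12, e1, e2, e3, ?_⟩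
  have gen : ∀ (a b c : ι) (p q r : V), a ≠ b → a ≠ c → b ≠ c → ρ p = {a, b} → ρ q = {a, c} →
      ρ r = {b, c} → ∀ z, a ∈ ρ z → ρ z = {a, b} ∨ ρ z = {a, c} := by
    intro a b c p q r hab hac hbc hp hq hr z hz
    obtain ⟨d, hd, hda⟩ : ∃ d ∈ ρ z, d ≠ a := by
      by_contra hcon
      push Not at hcon
      apply (h.class_two hab hp).2 z
      ext v
      rw [mem_singleton]
      exact ⟨fun hv => hcon v hv, fun e => e ▸ hz⟩
    have ez := h.pair_eq (Ne.symm hda) hz hd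
    by_cases hdb : d = b
    · left; rw [ez, hdb]
    by_cases hdc : d = c
    · right; rw [ez, hdc]
    exfalso
    refine h.no_path (a := d) (b := a) (c := b) (d := c) hda hdb hdc hab hac hbc
      (x := z) (y := p) (z := r) ?_ hp hr
    rw [ez, pair_comm]
  intro z hz
  rcases hz with hz | hz | hz
  · rcases gen u w1 w2 y1 y2 y3 h1 h2 h12 e1 e2 e3 z hz with e | e
    · exact Or.inl e
    · exact Or.inr (Or.inl e)
  · rcases gen w1 u w2 y1 y3 y2 (Ne.symm h1) h12 h2 (by rw [e1, pair_comm]) e3 e2 z hz with e | e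
    · exact Or.inl (by rw [e, pair_comm])
    · exact Or.inr (Or.inr e)
  · rcases gen w2 u w1 y2 y3 y1 (Ne.symm h2) (Ne.symm h12) h1 (by rw [e2, pair_comm])
      (by rw [e3, pair_comm]) e1 z hz with e | e
    · exact Or.inr (Or.inl (by rw [e, pair_comm]))
    · exact Or.inr (Or.inr (by rw [e, pair_comm]))

end Pool.Agent.TD4
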