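import Pool.Agent.TD4.Core2

set_option autoImplicit false

namespace Pool.Agent.TD4

open Finset

variable {V ι : Type*} [Fintype V] [DecidableEq V] [Fintype ι] [DecidableEq ι]

variable {ρ : V → Finset ι}

/-- A triangle component of the residual structure. -/
def IsTri (ρ : V → Finset ι) (F : Finset ι) : Prop :=
  ∃ (a b c : ι) (y1 y2 y3 : V), F = {a, b, c} ∧ a ≠ b ∧ a ≠ c ∧ b ≠ c ∧ ρ y1 = {a, b} ∧
    ρ y2 = {a, c} ∧ ρ y3 = {b, c} ∧ ∀ z, (a ∈ ρ z ∨ b ∈ ρ z ∨ c ∈ ρ z) →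
      ρ z = {a, b} ∨ ρ z = {a, c} ∨ ρ z = {b, c}

/-- Closed neighbourhood in the residual structure. -/
def clo (ρ : V → Finset ι) (u : ι) : Finset ι :=
  univ.filter (fun w => ∃ z, u ∈ ρ z ∧ w ∈ ρ z)

theorem mem_clo {u w : ι} : w ∈ clo ρ u ↔ ∃ z, u ∈ ρ z ∧ w ∈ ρ z := by simp [clo]

theorem IsTri.clo_eq {F : Finset ι} (hF : IsTri ρ F) {u : ι} (hu : u ∈ F) : clo ρ u = F := by
  obtain ⟨a, b, c, y1, y2, y3, rfl, hab, hac, hbc, e1, e2, e3, hz⟩ := hF
  simp only [mem_insert, mem_singleton] at hu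
  ext w
  rw [mem_clo]
  constructor
  · rintro ⟨z, huz, hwz⟩
    have h1 : a ∈ ρ z ∨ b ∈ ρ z ∨ c ∈ ρ z := by
      rcases hu with rfl | rfl | rfl <;> tauto
    rcases hz z h1 with e | e | e
    · rw [e] at hwz; simp only [mem_insert, mem_singleton] at hwz ⊢; tauto
    · rw [e] at hwz; simp only [mem_insert, mem_singleton] at hwz ⊢; tauto
    · rw [e] at hwz; simp only [mem_insert, mem_singleton] at hwz ⊢; tauto
  · intro hw
    simp only [mem_insert, mem_singleton] at hw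
    have q1 : a ∈ ρ y1 ∧ b ∈ ρ y1 := by rw [e1]; simp
    have q2 : a ∈ ρ y2 ∧ c ∈ ρ y2 := by rw [e2]; simp
    have q3 : b ∈ ρ y3 ∧ c ∈ ρ y3 := by rw [e3]; simp
    rcases hu with rfl | rfl | rfl <;> rcases hw with rfl | rfl | rfl
    · exact ⟨y1, q1.1, q1.1⟩
    · exact ⟨y1, q1.1, q1.2⟩
    · exact ⟨y2, q2.1, q2.2⟩
    · exact ⟨y1, q1.2, q1.1⟩
    · exact ⟨y1, q1.2, q1.2⟩
    · exact ⟨y3, q3.1, q3.2⟩
    · exact ⟨y2, q2.2, q2.1⟩
    · exact ⟨y3, q3.2, q3.1⟩
    · exact ⟨y3, q3.2, q3.2⟩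

/-- The family of triangle components. -/
def fam (ρ : V → Finset ι) : Finset (Finset ι) :=
  (univ.filter (fun u => ∃ z, u ∈ ρ z)).image (clo ρ)

theorem Tight.isTri (h : Tight ρ) {F : Finset ι} (hF : F ∈ fam ρ) : IsTri ρ F := by
  obtain ⟨u, hu, rfl⟩ := mem_image.1 hF
  obtain ⟨z, hz⟩ := (mem_filter.1 hu).2
  obtain ⟨w1, w2, y1, y2, y3, h1, h2, h12, e1, e2, e3, hall⟩ := h.triangle hz
  have ht : IsTri ρ {u, w1, w2} :=
    ⟨u, w1, w2, y1, y2, y3, rfl, h1, h2, h12, e1, e2, e3, hall⟩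
  rw [ht.clo_eq (u := u) (by simp)]
  exact ht

theorem mem_fam_of {z : V} {u : ι} (hu : u ∈ ρ z) : clo ρ u ∈ fam ρ ∧ u ∈ clo ρ u :=
  ⟨mem_image_of_mem _ (mem_filter.2 ⟨mem_univ _, ⟨z, hu⟩⟩), mem_clo.2 ⟨z, hu, hu⟩⟩

theorem Tight.fam_disjoint (h : Tight ρ) {F F' : Finset ι} (hF : F ∈ fam ρ) (hF' : F' ∈ fam ρ)
    (hne : F ≠ F') : Disjoint F F' := by
  rw [disjoint_left]
  intro u hu hu'
  exact hne (((h.isTri hF).clo_eq hu).symm.trans ((h.isTri hF').clo_eq hu'))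

theorem IsTri.card_eq {F : Finset ι} (hF : IsTri ρ F) : F.card = 3 := by
  obtain ⟨a, b, c, y1, y2, y3, rfl, hab, hac, hbc, -⟩ := hF
  exact card_eq_three.2 ⟨a, b, c, hab, hac, hbc, rfl⟩

theorem Tight.card_remv (h : Tight ρ) {F : Finset ι} (hF : IsTri ρ F) : 6 ≤ (remv ρ F).card := by
  obtain ⟨a, b, c, y1, y2, y3, rfl, hab, hac, hbc, e1, e2, e3, hz⟩ := hF
  have c1 := (h.class_two hab e1).1
  have c2 := (h.class_two hac e2).1
  have c3 := (h.class_two hbc e3).1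
  have d12 : Disjoint (univ.filter (fun z => ρ z = {a, b})) (univ.filter (fun z => ρ z = {a, c})) := by
    rw [disjoint_left]
    intro z hz1 hz2
    have q1 := (mem_filter.1 hz1).2
    have q2 := (mem_filter.1 hz2).2
    have : b ∈ ρ z := by rw [q1]; simp
    rw [q2] at this
    simp [Ne.symm hab, hbc] at this
  have d3 : Disjoint (univ.filter (fun z => ρ z = {a, b}) ∪ univ.filter (fun z => ρ z = {a, c}))
      (univ.filter (fun z => ρ z = {b, c})) := by
    rw [disjoint_left]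
    intro z hz1 hz2
    have q2 := (mem_filter.1 hz2).2
    have ha : a ∈ ρ z := by
      rcases mem_union.1 hz1 with q | q
      · rw [(mem_filter.1 q).2]; simp
      · rw [(mem_filter.1 q).2]; simp
    rw [q2] at ha
    simp [hab, hac] at ha
  have hsub : (univ.filter (fun z => ρ z = {a, b}) ∪ univ.filter (fun z => ρ z = {a, c})) ∪
      (univ.filter (fun z => ρ z = {b, c})) ⊆ remv ρ {a, b, c} := by
    intro z hz
    have hz' : ρ z = {a, b} ∨ ρ z = {a, c} ∨ ρ z = {b, c} := by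
      rcases mem_union.1 hz with q | q
      · rcases mem_union.1 q with q | q
        · exact Or.inl (mem_filter.1 q).2
        · exact Or.inr (Or.inl (mem_filter.1 q).2)
      · exact Or.inr (Or.inr (mem_filter.1 q).2)
    rw [mem_remv]
    rcases hz' with e | e | e
    · refine ⟨⟨a, by rw [e]; simp⟩, ?_⟩
      rw [e]; intro v; simp only [mem_insert, mem_singleton]; tauto
    · refine ⟨⟨a, by rw [e]; simp⟩, ?_⟩
      rw [e]; intro v; simp only [mem_insert, mem_singleton]; tauto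
    · refine ⟨⟨b, by rw [e]; simp⟩, ?_⟩
      rw [e]; intro v; simp only [mem_insert, mem_singleton]; tauto
  have := card_le_card hsub
  rw [card_union_of_disjoint d3, card_union_of_disjoint d12, c1, c2, c3] at this
  omega

/-- Counting: three residual edges and six vertices for each component. -/
theorem Tight.count (h : Tight ρ) (R : Finset ι) (hR : ∀ z, ρ z ⊆ R) :
    3 * (fam ρ).card ≤ R.card ∧ 6 * (fam ρ).card ≤ (univ.filter (fun v => (ρ v).Nonempty)).card := by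
  constructor
  · have h1 : ((fam ρ).biUnion id).card = ∑ F ∈ fam ρ, F.card := by
      apply card_biUnion
      intro F hF F' hF' hne
      exact h.fam_disjoint hF hF' hne
    have h2 : ∑ F ∈ fam ρ, F.card = (fam ρ).card * 3 := by
      rw [sum_const_nat]
      intro F hF
      exact (h.isTri hF).card_eq
    have h3 : (fam ρ).biUnion id ⊆ R := by
      intro u hu
      obtain ⟨F, hF, huF⟩ := mem_biUnion.1 hu
      rw [id] at huF
      have hc := (h.isTri hF).clo_eq huF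
      rw [← hc] at huF
      obtain ⟨z, hz, -⟩ := mem_clo.1 huF
      exact hR z hz
    have := card_le_card h3
    omega
  · have h1 : ((fam ρ).biUnion (remv ρ)).card = ∑ F ∈ fam ρ, (remv ρ F).card := by
      apply card_biUnion
      intro F hF F' hF' hne
      refine disjoint_left.2 ?_
      intro v hv hv'
      obtain ⟨⟨u, hu⟩, hs⟩ := mem_remv.1 hv
      obtain ⟨-, hs'⟩ := mem_remv.1 hv'
      exact (disjoint_left.1 (h.fam_disjoint hF hF' hne)) (hs hu) (hs' hu)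
    have h2 : (fam ρ).card * 6 ≤ ∑ F ∈ fam ρ, (remv ρ F).card := by
      rw [← smul_eq_mul]
      exact card_nsmul_le_sum _ _ _ (fun F hF => h.card_remv (h.isTri hF))
    have h3 : (fam ρ).biUnion (remv ρ) ⊆ univ.filter (fun v => (ρ v).Nonempty) := by
      intro v hv
      obtain ⟨F, hF, hvF⟩ := mem_biUnion.1 hv
      exact mem_filter.2 ⟨mem_univ _, (mem_remv.1 hvF).1⟩
    have := card_le_card h3
    omega

theorem Tight.count_sub (h : Tight ρ) {T : Finset (Finset ι)} (hT : T ⊆ fam ρ) :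
    6 * T.card ≤ (T.biUnion (remv ρ)).card := by
  have h1 : (T.biUnion (remv ρ)).card = ∑ F ∈ T, (remv ρ F).card := by
    apply card_biUnion
    intro F hF F' hF' hne
    refine disjoint_left.2 ?_
    intro v hv hv'
    obtain ⟨⟨u, hu⟩, hs⟩ := mem_remv.1 hv
    obtain ⟨-, hs'⟩ := mem_remv.1 hv'
    exact (disjoint_left.1 (h.fam_disjoint (hT hF) (hT hF') hne)) (hs hu) (hs' hu)
  have h2 : T.card * 6 ≤ ∑ F ∈ T, (remv ρ F).card := by
    rw [← smul_eq_mul]
    exact card_nsmul_le_sum _ _ _ (fun F hF => h.card_remv (h.isTri (hT hF)))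
  omega

/-- Two vertices per component suffice. -/
theorem Tight.hit (h : Tight ρ) : ∃ D : Finset V, D.card ≤ 2 * (fam ρ).card ∧
    ∀ z u, u ∈ ρ z → ∃ x ∈ D, u ∈ ρ x := by
  have h1 : ∀ F : Finset ι, ∃ E : Finset V, E.card ≤ 2 ∧ (F ∈ fam ρ → ∀ u ∈ F, ∃ x ∈ E, u ∈ ρ x) := by
    intro F
    by_cases hF : F ∈ fam ρ
    · obtain ⟨a, b, c, y1, y2, y3, rfl, hab, hac, hbc, e1, e2, e3, hz⟩ := h.isTri hF
      refine ⟨{y1, y2}, Finset.card_le_two, fun _ u hu => ?_⟩
      simp only [mem_insert, mem_singleton] at hu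
      rcases hu with rfl | rfl | rfl
      · exact ⟨y1, by simp, by rw [e1]; simp⟩
      · exact ⟨y1, by simp, by rw [e1]; simp⟩
      · exact ⟨y2, by simp, by rw [e2]; simp⟩
    · exact ⟨∅, by simp, fun h => absurd h hF⟩
  choose E hE1 hE2 using h1
  refine ⟨(fam ρ).biUnion E, ?_, ?_⟩
  · rw [mul_comm]
    exact card_biUnion_le_card_mul _ _ _ (fun F _ => hE1 F)
  · intro z u hu
    obtain ⟨hm, hm'⟩ := mem_fam_of hu
    obtain ⟨x, hx, hux⟩ := hE2 _ hm u hm'
    exact ⟨x, mem_biUnion.2 ⟨_, hm, hx⟩, hux⟩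

end Pool.Agent.TD4
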