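import Pool.Agent.TD4.Fam

set_option autoImplicit false

/-! Hypergraph version: edges `e i`, `i : ι`, on a finite vertex set `V`. -/

namespace Pool.Agent.TD4.Hyp

open Finset Pool.Agent.TD4

variable {V ι : Type*} [Fintype V] [DecidableEq V] [Fintype ι] [DecidableEq ι] (e : ι → Finset V)

/-- The edges not met by `S`. -/
def und (S : Finset V) : Finset ι := univ.filter (fun i => ∀ s ∈ S, s ∉ e i)

/-- The edges containing `v` that are not met by `S`. -/
def rho (S : Finset V) (v : V) : Finset ι := (und e S).filter (fun i => v ∈ e i)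

/-- The potential. -/
def lam (S : Finset V) : ℕ :=
  5 * S.card + (und e S).card + (univ.filter (fun v => (rho e S v).Nonempty)).card

variable {e}

theorem mem_und {S : Finset V} {i : ι} : i ∈ und e S ↔ ∀ s ∈ S, s ∉ e i := by simp [und]

theorem mem_rho {S : Finset V} {i : ι} {v : V} :
    i ∈ rho e S v ↔ (∀ s ∈ S, s ∉ e i) ∧ v ∈ e i := by
  simp [rho, mem_und]

theorem und_union (S X : Finset V) : und e (S ∪ X) = und e S \ X.biUnion (rho e S) := by
  ext i
  simp only [mem_und, mem_sdiff, mem_biUnion, mem_rho, mem_union, not_exists, not_and]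
  constructor
  · intro h
    exact ⟨fun s hs => h s (Or.inl hs), fun x hx _ => h x (Or.inr hx)⟩
  · rintro ⟨h1, h2⟩ s (hs | hs)
    · exact h1 s hs
    · exact h2 s hs h1

theorem rho_union (S X : Finset V) (v : V) :
    rho e (S ∪ X) v = rho e S v \ X.biUnion (rho e S) := by
  ext i
  rw [rho, mem_filter, und_union, mem_sdiff, mem_sdiff, rho, mem_filter]
  tauto

theorem lam_union (S X : Finset V) (hd : Disjoint S X) :
    lam e (S ∪ X) + (X.biUnion (rho e S)).card + (remv (rho e S) (X.biUnion (rho e S))).card =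
      lam e S + 5 * X.card := by
  have h1 : X.biUnion (rho e S) ⊆ und e S := by
    intro i hi
    obtain ⟨x, -, hx⟩ := mem_biUnion.1 hi
    exact (mem_filter.1 hx).1
  have h2 : (und e (S ∪ X)).card + (X.biUnion (rho e S)).card = (und e S).card := by
    rw [und_union]
    exact card_sdiff_add_card_eq_card h1
  have h3 : remv (rho e S) (X.biUnion (rho e S)) ⊆
      univ.filter (fun v => (rho e S v).Nonempty) := by
    intro v hv
    exact mem_filter.2 ⟨mem_univ _, (mem_remv.1 hv).1⟩
  have h4 : univ.filter (fun v => (rho e (S ∪ X) v).Nonempty) =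
      univ.filter (fun v => (rho e S v).Nonempty) \ remv (rho e S) (X.biUnion (rho e S)) := by
    ext v
    rw [mem_filter, mem_sdiff, mem_filter, mem_remv, rho_union]
    constructor
    · rintro ⟨-, u, hu⟩
      obtain ⟨hu1, hu2⟩ := mem_sdiff.1 hu
      exact ⟨⟨mem_univ _, ⟨u, hu1⟩⟩, fun hcon => hu2 (hcon.2 hu1)⟩
    · rintro ⟨⟨-, hne⟩, hcon⟩
      refine ⟨mem_univ _, ?_⟩
      rw [sdiff_nonempty]
      exact fun hs => hcon ⟨hne, hs⟩
  have h5 : (univ.filter (fun v => (rho e (S ∪ X) v).Nonempty)).card +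
      (remv (rho e S) (X.biUnion (rho e S))).card =
      (univ.filter (fun v => (rho e S v).Nonempty)).card := by
    rw [h4]
    exact card_sdiff_add_card_eq_card h3
  have h6 : (S ∪ X).card = S.card + X.card := card_union_of_disjoint hd
  unfold lam
  omega

variable (e)

theorem exists_min : ∃ S, lam e S ≤ lam e ∅ ∧
    ∀ X : Finset V, X.Nonempty → Disjoint S X → lam e S < lam e (S ∪ X) := by
  obtain ⟨S, -, hmin⟩ := exists_min_image (univ : Finset (Finset V))
    (fun S => (Fintype.card V + 1) * lam e S + (Fintype.card V - S.card))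
    ⟨∅, mem_univ _⟩
  have key : ∀ T : Finset V, lam e S ≤ lam e T ∧ (lam e T = lam e S → T.card ≤ S.card) := by
    intro T
    have h1 := hmin T (mem_univ _)
    have h2 : T.card ≤ Fintype.card V := card_le_univ T
    have h3 : S.card ≤ Fintype.card V := card_le_univ S
    constructor
    · by_contra hlt
      push Not at hlt
      have h4 : (Fintype.card V + 1) * (lam e T + 1) ≤ (Fintype.card V + 1) * lam e S :=
        Nat.mul_le_mul_left _ hlt
      have h5 : (Fintype.card V + 1) * (lam e T + 1) =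
          (Fintype.card V + 1) * lam e T + (Fintype.card V + 1) := by ring
      omega
    · intro he
      rw [he] at h1
      omega
  refine ⟨S, (key ∅).1, ?_⟩
  intro X hX hd
  have h1 := key (S ∪ X)
  rcases lt_or_eq_of_le h1.1 with h2 | h2
  · exact h2
  · exfalso
    have h3 := h1.2 h2.symm
    rw [card_union_of_disjoint hd] at h3
    have h4 := card_pos.2 hX
    omega

variable {e}

theorem not_mem_of_rho {S : Finset V} {x : V} (hx : (rho e S x).Nonempty) : x ∉ S := by
  obtain ⟨i, hi⟩ := hx
  obtain ⟨h1, h2⟩ := mem_rho.1 hi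
  exact fun h => h1 x h h2

theorem tight_of_min (h4 : ∀ i, 4 ≤ (e i).card) (hP : ∀ i j, i ≠ j → (e i ∩ e j).card ≠ 1)
    {S : Finset V}
    (hmin : ∀ X : Finset V, X.Nonempty → Disjoint S X → lam e S < lam e (S ∪ X)) :
    Tight (rho e S) := by
  have hone : ∀ x, (rho e S x).Nonempty →
      (rho e S x).card + (remv (rho e S) (rho e S x)).card ≤ 4 := by
    intro x hx
    have hd : Disjoint S {x} := by
      rw [disjoint_singleton_right]
      exact not_mem_of_rho hx
    have h1 := hmin {x} ⟨x, by simp⟩ hd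
    have h2 := lam_union (e := e) S {x} hd
    rw [singleton_biUnion, card_singleton] at h2
    omega
  refine ⟨?_, ?_, hone, ?_⟩
  · intro v i hi
    obtain ⟨h1, -⟩ := mem_rho.1 hi
    have h2 : univ.filter (fun x => i ∈ rho e S x) = e i := by
      ext x
      rw [mem_filter, mem_rho]
      exact ⟨fun h => h.2.2, fun h => ⟨mem_univ _, h1, h⟩⟩
    rw [h2]
    exact h4 i
  · intro i j hij v hi hj
    obtain ⟨h1, h2⟩ := mem_rho.1 hi
    obtain ⟨h3, h4⟩ := mem_rho.1 hj
    have hv : v ∈ e i ∩ e j := mem_inter.2 ⟨h2, h4⟩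
    have hc : 1 < (e i ∩ e j).card := by
      have k1 := hP i j hij
      have k2 := card_pos.2 ⟨v, hv⟩
      omega
    obtain ⟨x', hx', hne⟩ := exists_mem_ne hc v
    exact ⟨x', hne, mem_rho.2 ⟨h1, (mem_inter.1 hx').1⟩, mem_rho.2 ⟨h3, (mem_inter.1 hx').2⟩⟩
  · intro x y
    rcases (rho e S x).eq_empty_or_nonempty with hx | hx
    · rw [hx, empty_union]
      rcases (rho e S y).eq_empty_or_nonempty with hy | hy
      · rw [hy]
        have : remv (rho e S) ∅ = ∅ := by
          apply eq_empty_of_forall_notMem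
          intro v hv
          obtain ⟨⟨u, hu⟩, h2⟩ := mem_remv.1 hv
          exact notMem_empty _ (h2 hu)
        rw [this]
        simp
      · have := hone y hy
        omega
    · rcases (rho e S y).eq_empty_or_nonempty with hy | hy
      · rw [hy, union_empty]
        have := hone x hx
        omega
      · by_cases hxy : x = y
        · subst hxy
          rw [union_self]
          have := hone x hx
          omega
        · have hd : Disjoint S {x, y} := by
            rw [disjoint_left]
            intro z hz hz'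
            rw [mem_insert, mem_singleton] at hz'
            rcases hz' with rfl | rfl
            · exact not_mem_of_rho hx hz
            · exact not_mem_of_rho hy hz
          have h1 := hmin {x, y} ⟨x, by simp⟩ hd
          have h2 := lam_union (e := e) S {x, y} hd
          rw [card_pair hxy] at h2
          have h3 : ({x, y} : Finset V).biUnion (rho e S) = rho e S x ∪ rho e S y := by
            rw [biUnion_insert, singleton_biUnion]
          rw [h3] at h2
          omega

/-- Three edges of size four, any two of them sharing exactly two vertices, with no vertex common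
to all three. -/
def Doubled (e : ι → Finset V) (a b c : ι) : Prop :=
  (e a).card = 4 ∧ (e b).card = 4 ∧ (e c).card = 4 ∧ (e a ∩ e b).card = 2 ∧
    (e a ∩ e c).card = 2 ∧ (e b ∩ e c).card = 2 ∧ e a ∩ e b ∩ e c = ∅

theorem mem_rho_of {S : Finset V} {u : ι} {z x : V} (hu : u ∈ rho e S z) (hx : x ∈ e u) :
    u ∈ rho e S x := mem_rho.2 ⟨(mem_rho.1 hu).1, hx⟩

theorem card_edge {S : Finset V} (ht : Tight (rho e S)) {a b c : ι} {y1 y2 : V} (hab : a ≠ b)
    (hbc : b ≠ c) (e1 : rho e S y1 = {a, b}) (e2 : rho e S y2 = {a, c})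
    (hac : a ≠ c)
    (hall : ∀ z, a ∈ rho e S z → rho e S z = {a, b} ∨ rho e S z = {a, c}) :
    (e a).card = 4 := by
  have ha : a ∈ rho e S y1 := by rw [e1]; simp
  have h1 : e a = univ.filter (fun z => rho e S z = {a, b}) ∪
      univ.filter (fun z => rho e S z = {a, c}) := by
    ext z
    simp only [mem_union, mem_filter, mem_univ, true_and]
    constructor
    · exact fun h => hall z (mem_rho_of ha h)
    · intro h
      have : a ∈ rho e S z := by
        rcases h with h | h <;> rw [h] <;> simp
      exact (mem_rho.1 this).2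
  rw [h1, card_union_of_disjoint, (ht.class_two hab e1).1, (ht.class_two hac e2).1]
  rw [disjoint_left]
  intro z h2 h3
  have k2 := (mem_filter.1 h2).2
  have k3 := (mem_filter.1 h3).2
  have : b ∈ rho e S z := by rw [k2]; simp
  rw [k3] at this
  simp [Ne.symm hab, hbc] at this

theorem card_inter {S : Finset V} (ht : Tight (rho e S)) {a b : ι} {y1 : V} (hab : a ≠ b)
    (e1 : rho e S y1 = {a, b}) : (e a ∩ e b).card = 2 := by
  have ha : a ∈ rho e S y1 := by rw [e1]; simp
  have hb : b ∈ rho e S y1 := by rw [e1]; simp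
  have h1 : e a ∩ e b = univ.filter (fun z => rho e S z = {a, b}) := by
    ext z
    simp only [mem_inter, mem_filter, mem_univ, true_and]
    constructor
    · rintro ⟨h2, h3⟩
      exact ht.pair_eq hab (mem_rho_of ha h2) (mem_rho_of hb h3)
    · intro h
      have k1 : a ∈ rho e S z := by rw [h]; simp
      have k2 : b ∈ rho e S z := by rw [h]; simp
      exact ⟨(mem_rho.1 k1).2, (mem_rho.1 k2).2⟩
  rw [h1, (ht.class_two hab e1).1]

theorem doubled_of {S : Finset V} (ht : Tight (rho e S)) {a b c : ι} {y1 y2 y3 : V}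
    (hab : a ≠ b) (hac : a ≠ c)
    (hbc : b ≠ c) (e1 : rho e S y1 = {a, b}) (e2 : rho e S y2 = {a, c})
    (e3 : rho e S y3 = {b, c}) (hall : ∀ z, (a ∈ rho e S z ∨ b ∈ rho e S z ∨ c ∈ rho e S z) →
      rho e S z = {a, b} ∨ rho e S z = {a, c} ∨ rho e S z = {b, c}) :
    Doubled e a b c := by
  have ha : a ∈ rho e S y1 := by rw [e1]; simp
  have hb : b ∈ rho e S y1 := by rw [e1]; simp
  have hc : c ∈ rho e S y2 := by rw [e2]; simp
  refine ⟨?_, ?_, ?_, card_inter ht hab e1, card_inter ht hac e2, card_inter ht hbc e3, ?_⟩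
  · apply card_edge ht hab hbc e1 e2 hac
    intro z hz
    rcases hall z (Or.inl hz) with e | e | e
    · exact Or.inl e
    · exact Or.inr e
    · rw [e] at hz
      simp [hab, hac] at hz
  · apply card_edge ht (Ne.symm hab) hac (y1 := y1) (y2 := y3) (by rw [e1, pair_comm]) e3 hbc
    intro z hz
    rcases hall z (Or.inr (Or.inl hz)) with e | e | e
    · exact Or.inl (by rw [e, pair_comm])
    · rw [e] at hz
      simp [Ne.symm hab, hbc] at hz
    · exact Or.inr e
  · apply card_edge ht (Ne.symm hac) hab (y1 := y2) (y2 := y3)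
      (by rw [e2, pair_comm]) (by rw [e3, pair_comm]) (Ne.symm hbc)
    intro z hz
    rcases hall z (Or.inr (Or.inr hz)) with e | e | e
    · rw [e] at hz
      simp [Ne.symm hac, Ne.symm hbc] at hz
    · exact Or.inl (by rw [e, pair_comm])
    · exact Or.inr (by rw [e, pair_comm])
  · apply eq_empty_of_forall_notMem
    intro x hx
    obtain ⟨hx1, h3⟩ := mem_inter.1 hx
    obtain ⟨h1, h2⟩ := mem_inter.1 hx1
    have k1 := mem_rho_of ha h1
    have k2 := mem_rho_of hb h2
    have k3 := mem_rho_of hc h3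
    have : rho e S x = {a, b} := ht.pair_eq hab k1 k2
    rw [this] at k3
    simp [Ne.symm hac, Ne.symm hbc] at k3

/-- The hypergraph theorem. -/
theorem main (h4 : ∀ i, 4 ≤ (e i).card) (hP : ∀ i j, i ≠ j → (e i ∩ e j).card ≠ 1) :
    ∃ (D : Finset V) (T : Finset (Finset ι)), (∀ i, (e i ∩ D).Nonempty) ∧
      (∀ F ∈ T, ∃ a b c, F = {a, b, c} ∧ Doubled e a b c) ∧
      (∀ F ∈ T, ∀ F' ∈ T, F ≠ F' → ∀ i ∈ F, ∀ j ∈ F', Disjoint (e i) (e j)) ∧
      5 * D.card ≤ Fintype.card V + Fintype.card ι + T.card := by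
  obtain ⟨S, hlam, hmin⟩ := exists_min e
  have ht := tight_of_min h4 hP hmin
  obtain ⟨E, hE, hE'⟩ := ht.hit
  have hR : ∀ z, rho e S z ⊆ und e S := fun z => filter_subset _ _
  obtain ⟨c1, c2⟩ := ht.count (und e S) hR
  have hl0 : lam e ∅ ≤ Fintype.card V + Fintype.card ι := by
    unfold lam
    have k1 := card_le_univ (und e ∅)
    have k2 := card_le_univ (univ.filter (fun v => (rho e ∅ v).Nonempty))
    rw [card_empty]
    omega
  refine ⟨S ∪ E, fam (rho e S), ?_, ?_, ?_, ?_⟩
  · intro i
    by_cases hi : ∃ s ∈ S, s ∈ e i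
    · obtain ⟨s, hs, hsi⟩ := hi
      exact ⟨s, mem_inter.2 ⟨hsi, mem_union_left _ hs⟩⟩
    · push Not at hi
      have h1 : 0 < (e i).card := by
        have := h4 i
        omega
      obtain ⟨x, hx⟩ := card_pos.1 h1
      obtain ⟨y, hy, hiy⟩ := hE' x i (mem_rho.2 ⟨hi, hx⟩)
      exact ⟨y, mem_inter.2 ⟨(mem_rho.1 hiy).2, mem_union_right _ hy⟩⟩
  · intro F hF
    obtain ⟨a, b, c, y1, y2, y3, hF', hab, hac, hbc, e1, e2, e3, hall⟩ := ht.isTri hF
    exact ⟨a, b, c, hF', doubled_of ht hab hac hbc e1 e2 e3 hall⟩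
  · intro F hF F' hF' hne u hu u' hu'
    rw [disjoint_left]
    intro x hx hx'
    have hcu : clo (rho e S) u = F := (ht.isTri hF).clo_eq hu
    have hcu' : clo (rho e S) u' = F' := (ht.isTri hF').clo_eq hu'
    have m1 : u ∈ clo (rho e S) u := by rw [hcu]; exact hu
    have m2 : u' ∈ clo (rho e S) u' := by rw [hcu']; exact hu'
    obtain ⟨z, hz, -⟩ := mem_clo.1 m1
    obtain ⟨z', hz', -⟩ := mem_clo.1 m2
    have k1 := mem_rho_of hz hx
    have k2 := mem_rho_of hz' hx'
    have m3 : u' ∈ clo (rho e S) u := mem_clo.2 ⟨x, k1, k2⟩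
    rw [hcu] at m3
    exact (disjoint_left.1 (ht.fam_disjoint hF hF' hne)) m3 hu'
  · have h1 : (S ∪ E).card ≤ S.card + E.card := card_union_le _ _
    have h2 : lam e S = 5 * S.card + (und e S).card +
      (univ.filter (fun v => (rho e S v).Nonempty)).card := rfl
    omega

end Pool.Agent.TD4.Hyp
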