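import Mathlib

set_option autoImplicit false

namespace Pool.Agent.TD4

/-- The bipartite complement of the Heawood graph. -/
def HC : SimpleGraph (ZMod 7 ⊕ ZMod 7) :=
  SimpleGraph.fromRel (fun a b : ZMod 7 ⊕ ZMod 7 =>
    ∃ i j : ZMod 7, a = Sum.inl i ∧ b = Sum.inr j ∧ i - j ≠ 0 ∧ i - j ≠ 1 ∧ i - j ≠ 3)

theorem closed_univ {V : Type*} {G : SimpleGraph V} (hG : G.Connected) (W : Set V) {v0 : V}
    (h0 : v0 ∈ W) (hW : ∀ x ∈ W, ∀ y, G.Adj x y → y ∈ W) (v : V) : v ∈ W := by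
  obtain ⟨p⟩ := hG.preconnected v0 v
  induction p with
  | nil => exact h0
  | cons h p ih => exact ih (hW _ h0 _ h)

theorem fano_aux : ∀ j i1 i2 : ZMod 7, j ≠ 0 →
    (i1 = 0 ∨ i1 = 1 ∨ i1 = 3) → (i2 = 0 ∨ i2 = 1 ∨ i2 = 3) →
    (i1 - j = 0 ∨ i1 - j = 1 ∨ i1 - j = 3) → (i2 - j = 0 ∨ i2 - j = 1 ∨ i2 - j = 3) →
    i1 = i2 := by decide

theorem iso_of {V : Type*} {G : SimpleGraph V} (hG : G.Connected) (px py : ZMod 7 → V)
    (hpx : Function.Injective px) (hpy : Function.Injective py)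
    (hN : ∀ j x, G.Adj (py j) x ↔ ∃ i, x = px i ∧ i - j ≠ 0 ∧ i - j ≠ 1 ∧ i - j ≠ 3)
    (hX : ∀ i x, G.Adj (px i) x → ∃ j, x = py j) : Nonempty (G ≃g HC) := by
  have hcov : ∀ v, v ∈ {v | (∃ i, v = px i) ∨ ∃ j, v = py j} := by
    refine fun v => closed_univ hG {v | (∃ i, v = px i) ∨ ∃ j, v = py j} (v0 := px 0)
      (Or.inl ⟨0, rfl⟩) ?_ v
    rintro x (⟨i, rfl⟩ | ⟨j, rfl⟩) y hxy
    · exact Or.inr (hX i y hxy)
    · obtain ⟨i, hi, -⟩ := (hN j y).1 hxy
      exact Or.inl ⟨i, hi⟩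
  have hdis : ∀ i j, px i ≠ py j := by
    intro i0 j0 h0
    have hall : ∀ v, v ∈ {v | (∃ i, v = px i) ∧ ∃ j, v = py j} := by
      refine fun v => closed_univ hG {v | (∃ i, v = px i) ∧ ∃ j, v = py j} (v0 := px i0)
        ⟨⟨i0, rfl⟩, ⟨j0, h0⟩⟩ ?_ v
      rintro x ⟨⟨i, hi⟩, ⟨j, hj⟩⟩ y hxy
      constructor
      · rw [hj] at hxy
        obtain ⟨i', hi', -⟩ := (hN j y).1 hxy
        exact ⟨i', hi'⟩
      · rw [hi] at hxy
        exact hX i y hxy
    have hτ : ∀ j, ∃ i, py j = px i := fun j => (hall (py j)).1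
    choose τ hτ using hτ
    have hinj : Function.Injective τ := by
      intro a b hab
      apply hpy
      rw [hτ a, hτ b, hab]
    have hsurj : Function.Surjective τ := Finite.injective_iff_surjective.1 hinj
    have hadj : ∀ j j', ¬ G.Adj (py j) (py j') → (τ j' - j = 0 ∨ τ j' - j = 1 ∨ τ j' - j = 3) := by
      intro j j' hna
      by_contra hcon
      push Not at hcon
      apply hna
      rw [hN]
      exact ⟨τ j', hτ j', hcon⟩
    have hadj' : ∀ j j', (τ j' - j = 0 ∨ τ j' - j = 1 ∨ τ j' - j = 3) → ¬ G.Adj (py j) (py j') := by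
      intro j j' hc ha
      obtain ⟨i, hi, h1, h2, h3⟩ := (hN j (py j')).1 ha
      rw [hτ j'] at hi
      have := hpx hi
      subst this
      tauto
    have h00 := hadj 0 0 (G.loopless.irrefl (py 0))
    rw [sub_zero] at h00
    obtain ⟨l, hl, hl0⟩ : ∃ l : ZMod 7, (l = 0 ∨ l = 1 ∨ l = 3) ∧ l ≠ τ 0 := by
      by_cases h : τ 0 = 0
      · exact ⟨1, by tauto, by rw [h]; decide⟩
      · exact ⟨0, by tauto, fun e => h e.symm⟩
    obtain ⟨j1, hj1⟩ := hsurj l
    have hj10 : j1 ≠ 0 := by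
      rintro rfl
      exact hl0 hj1.symm
    have hna : ¬ G.Adj (py 0) (py j1) := hadj' 0 j1 (by rw [hj1, sub_zero]; exact hl)
    have hna' : ¬ G.Adj (py j1) (py 0) := fun h => hna h.symm
    have h10 := hadj j1 0 hna'
    have h11 := hadj j1 j1 (G.loopless.irrefl (py j1))
    have := fano_aux j1 (τ 0) (τ j1) hj10 h00 (by rw [hj1]; exact hl) h10 h11
    rw [hj1] at this
    exact hl0 this.symm
  have hbij : Function.Bijective (Sum.elim px py) := by
    constructor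
    · rintro (i | j) (i' | j') h
      · rw [Sum.elim_inl, Sum.elim_inl] at h
        rw [hpx h]
      · exact absurd h (hdis i j')
      · exact absurd h.symm (hdis i' j)
      · rw [Sum.elim_inr, Sum.elim_inr] at h
        rw [hpy h]
    · intro v
      rcases hcov v with ⟨i, hi⟩ | ⟨j, hj⟩
      · exact ⟨Sum.inl i, hi.symm⟩
      · exact ⟨Sum.inr j, hj.symm⟩
  have key : ∀ i j, G.Adj (px i) (py j) ↔ (i - j ≠ 0 ∧ i - j ≠ 1 ∧ i - j ≠ 3) := by
    intro i j
    rw [G.adj_comm, hN]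
    constructor
    · rintro ⟨i', hi', h⟩
      rw [hpx hi']
      exact h
    · intro h
      exact ⟨i, rfl, h⟩
  refine ⟨SimpleGraph.Iso.symm ⟨Equiv.ofBijective _ hbij, ?_⟩⟩
  rintro (i | j) (i' | j')
  · simp only [Equiv.ofBijective_apply, Sum.elim_inl]
    constructor
    · intro h
      obtain ⟨j, hj⟩ := hX i _ h
      exact absurd hj (hdis i' j)
    · intro h
      simp [HC, SimpleGraph.fromRel_adj] at h
  · simp only [Equiv.ofBijective_apply, Sum.elim_inl, Sum.elim_inr]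
    rw [key]
    simp [HC, SimpleGraph.fromRel_adj]
  · simp only [Equiv.ofBijective_apply, Sum.elim_inl, Sum.elim_inr]
    rw [G.adj_comm, key]
    simp [HC, SimpleGraph.fromRel_adj]
  · simp only [Equiv.ofBijective_apply, Sum.elim_inr]
    constructor
    · intro h
      obtain ⟨i, hi, -⟩ := (hN j _).1 h
      exact absurd hi.symm (hdis i j')
    · intro h
      simp [HC, SimpleGraph.fromRel_adj] at h

end Pool.Agent.TD4
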