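import Pool.Agent.TD4.Loc
import Pool.Agent.TD4.Iso
set_option autoImplicit false
namespace Pool.Agent.TD4
open Finset

theorem shift_aux : ∀ i j : ZMod 7, (i - j ≠ 0 ∧ i - j ≠ 1 ∧ i - j ≠ 3) ↔
    (i = j + 2 ∨ i = j + 4 ∨ i = j + 5 ∨ i = j + 6) := by decide

theorem iso_of' {V : Type*} {G : SimpleGraph V} (hG : G.Connected) (px py : ZMod 7 → V)
    (hpx : Function.Injective px) (hpy : Function.Injective py)
    (hN : ∀ j, Nb G (py j) (px (j + 2)) (px (j + 4)) (px (j + 5)) (px (j + 6)))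
    (hX : ∀ i x, G.Adj (px i) x → ∃ j, x = py j) : Nonempty (G ≃g HC) := by
  refine iso_of hG px py hpx hpy ?_ hX
  intro j x
  rw [hN j x]
  constructor
  · rintro (h | h | h | h)
    · exact ⟨_, h, (shift_aux _ _).2 (Or.inl rfl)⟩
    · exact ⟨_, h, (shift_aux _ _).2 (Or.inr (Or.inl rfl))⟩
    · exact ⟨_, h, (shift_aux _ _).2 (Or.inr (Or.inr (Or.inl rfl)))⟩
    · exact ⟨_, h, (shift_aux _ _).2 (Or.inr (Or.inr (Or.inr rfl)))⟩
  · rintro ⟨i, rfl, h⟩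
    rcases (shift_aux _ _).1 h with e | e | e | e
    · exact Or.inl (by rw [e])
    · exact Or.inr (Or.inl (by rw [e]))
    · exact Or.inr (Or.inr (Or.inl (by rw [e])))
    · exact Or.inr (Or.inr (Or.inr (by rw [e])))

theorem inj7 {V : Type*} {a b c d e f g : V} (h : a ≠ b ∧ a ≠ c ∧ a ≠ d ∧ a ≠ e ∧ a ≠ f ∧ a ≠ g)
    (h2 : b ≠ c ∧ b ≠ d ∧ b ≠ e ∧ b ≠ f ∧ b ≠ g) (h3 : c ≠ d ∧ c ≠ e ∧ c ≠ f ∧ c ≠ g)
    (h4 : d ≠ e ∧ d ≠ f ∧ d ≠ g) (h5 : e ≠ f ∧ e ≠ g) (h6 : f ≠ g) :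
    Function.Injective (![a, b, c, d, e, f, g] : Fin 7 → V) := by
  rw [← List.nodup_ofFn]
  simp only [List.ofFn_succ, List.ofFn_zero, List.nodup_cons, List.mem_cons, List.not_mem_nil,
    Matrix.cons_val_zero, Matrix.cons_val_succ, List.nodup_nil, not_false_eq_true, or_false,
    not_or, and_true]
  exact ⟨h, h2, h3, h4, h5, h6⟩

theorem iso_explicit {V : Type*} {G : SimpleGraph V} (hG : G.Connected)
    {a b c g h1 h2 h3 s v1 v2 v3 w1 w2 w3 : V}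
    (ix : Function.Injective (![s, w3, w2, v3, w1, v1, v2] : Fin 7 → V))
    (iy : Function.Injective (![a, g, h2, h1, c, h3, b] : Fin 7 → V))
    (Na : Nb G a v1 w1 v2 w2) (Nbb : Nb G b v1 w1 v3 w3) (Nc : Nb G c v2 w2 v3 w3)
    (Ng : Nb G g s v1 v2 v3) (m1 : Nb G h1 s v1 w2 w3) (m2 : Nb G h2 s v2 w1 w3)
    (m3 : Nb G h3 s v3 w1 w2)
    (blk : ∀ p, (p = s ∨ p = v1 ∨ p = w1 ∨ p = v2 ∨ p = w2 ∨ p = v3 ∨ p = w3) → ∀ x,
      G.Adj p x → (x = a ∨ x = b ∨ x = c ∨ x = g ∨ x = h1 ∨ x = h2 ∨ x = h3)) :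
    Nonempty (G ≃g HC) := by
  refine iso_of' hG (![s, w3, w2, v3, w1, v1, v2] : Fin 7 → V)
    (![a, g, h2, h1, c, h3, b] : Fin 7 → V) ix iy ?_ ?_
  · have h : ∀ j : Fin 7, Nb G ((![a, g, h2, h1, c, h3, b] : Fin 7 → V) j)
        ((![s, w3, w2, v3, w1, v1, v2] : Fin 7 → V) (j + 2))
        ((![s, w3, w2, v3, w1, v1, v2] : Fin 7 → V) (j + 4))
        ((![s, w3, w2, v3, w1, v1, v2] : Fin 7 → V) (j + 5))
        ((![s, w3, w2, v3, w1, v1, v2] : Fin 7 → V) (j + 6)) := by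
      intro j
      match j with
      | 0 => exact fun x => (Na x).trans (show _ ↔ (x = w2 ∨ x = w1 ∨ x = v1 ∨ x = v2) by tauto)
      | 1 => exact fun x => (Ng x).trans (show _ ↔ (x = v3 ∨ x = v1 ∨ x = v2 ∨ x = s) by tauto)
      | 2 => exact fun x => (m2 x).trans (show _ ↔ (x = w1 ∨ x = v2 ∨ x = s ∨ x = w3) by tauto)
      | 3 => exact fun x => (m1 x).trans (show _ ↔ (x = v1 ∨ x = s ∨ x = w3 ∨ x = w2) by tauto)
      | 4 => exact fun x => (Nc x).trans (show _ ↔ (x = v2 ∨ x = w3 ∨ x = w2 ∨ x = v3) by tauto)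
      | 5 => exact fun x => (m3 x).trans (show _ ↔ (x = s ∨ x = w2 ∨ x = v3 ∨ x = w1) by tauto)
      | 6 => exact fun x => (Nbb x).trans (show _ ↔ (x = w3 ∨ x = v3 ∨ x = w1 ∨ x = v1) by tauto)
    exact h
  · have h : ∀ i : Fin 7, ∀ x, G.Adj ((![s, w3, w2, v3, w1, v1, v2] : Fin 7 → V) i) x →
        ∃ j : Fin 7, x = (![a, g, h2, h1, c, h3, b] : Fin 7 → V) j := by
      intro i x hx
      have hp : (![s, w3, w2, v3, w1, v1, v2] : Fin 7 → V) i = s ∨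
          (![s, w3, w2, v3, w1, v1, v2] : Fin 7 → V) i = v1 ∨
          (![s, w3, w2, v3, w1, v1, v2] : Fin 7 → V) i = w1 ∨
          (![s, w3, w2, v3, w1, v1, v2] : Fin 7 → V) i = v2 ∨
          (![s, w3, w2, v3, w1, v1, v2] : Fin 7 → V) i = w2 ∨
          (![s, w3, w2, v3, w1, v1, v2] : Fin 7 → V) i = v3 ∨
          (![s, w3, w2, v3, w1, v1, v2] : Fin 7 → V) i = w3 := by
        match i with
        | 0 => exact Or.inl rfl
        | 1 => exact Or.inr (Or.inr (Or.inr (Or.inr (Or.inr (Or.inr rfl)))))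
        | 2 => exact Or.inr (Or.inr (Or.inr (Or.inr (Or.inl rfl))))
        | 3 => exact Or.inr (Or.inr (Or.inr (Or.inr (Or.inr (Or.inl rfl)))))
        | 4 => exact Or.inr (Or.inr (Or.inl rfl))
        | 5 => exact Or.inr (Or.inl rfl)
        | 6 => exact Or.inr (Or.inr (Or.inr (Or.inl rfl)))
      rcases blk _ hp x hx with e | e | e | e | e | e | e
      · exact ⟨0, e⟩
      · exact ⟨6, e⟩
      · exact ⟨4, e⟩
      · exact ⟨1, e⟩
      · exact ⟨3, e⟩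
      · exact ⟨2, e⟩
      · exact ⟨5, e⟩
    exact h

end Pool.Agent.TD4
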