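import Pool.Agent.TD4.Pot

set_option autoImplicit false

namespace Pool.Agent.TD4

open Finset

variable {V : Type*} [Fintype V] [DecidableEq V] {G : SimpleGraph V} [DecidableRel G.Adj]

/-- The situation: `S1` a maximal open packing, `S` a minimal set dominating at least as much. -/
structure Ctx (G : SimpleGraph V) [DecidableRel G.Adj] (S1 S : Finset V) : Prop where
  hdeg : ∀ v, 4 ≤ G.degree v
  nu : NoUnique G
  dom : ∀ s ∈ S1, ∀ u, G.Adj s u → ∃ s' ∈ S, G.Adj u s'
  tight : Tight (rho G S)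
  pack : ∀ s ∈ S1, ∀ t ∈ S1, ∀ x, G.Adj s x → G.Adj t x → s = t
  maxi : ∀ v, v ∉ S1 → ∃ s ∈ S1, ∃ x, G.Adj v x ∧ G.Adj s x

variable {S1 S : Finset V}

/-- Neighbourhood given by an explicit list of at most four vertices. -/
def Nb (G : SimpleGraph V) (v a b c d : V) : Prop :=
  ∀ x, G.Adj v x ↔ x = a ∨ x = b ∨ x = c ∨ x = d

theorem nb_of {v a b c d : V} (hd : G.degree v = 4) (h : a ≠ b ∧ a ≠ c ∧ a ≠ d ∧ b ≠ c ∧
    b ≠ d ∧ c ≠ d) (ha : G.Adj v a) (hb : G.Adj v b) (hc : G.Adj v c) (hd' : G.Adj v d) :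
    Nb G v a b c d := by
  have h1 : ({a, b, c, d} : Finset V) ⊆ G.neighborFinset v := by
    intro z hz
    rw [SimpleGraph.mem_neighborFinset]
    simp only [mem_insert, mem_singleton] at hz
    rcases hz with rfl | rfl | rfl | rfl <;> assumption
  have h2 : ({a, b, c, d} : Finset V) = G.neighborFinset v := by
    apply eq_of_subset_of_card_le h1
    rw [SimpleGraph.card_neighborFinset_eq_degree, hd, card4 h]
  intro x
  rw [← SimpleGraph.mem_neighborFinset, ← h2]
  simp only [mem_insert, mem_singleton]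

theorem Ctx.not_und (hc : Ctx G S1 S) {s x u z : V} (hs : s ∈ S1) (hx : G.Adj s x)
    (hu : u ∈ rho G S z) : x ≠ u := by
  rintro rfl
  obtain ⟨s', hs', h⟩ := hc.dom s hs x hx
  exact (mem_rho.1 hu).1 s' hs' h

theorem Ctx.rho_s (hc : Ctx G S1 S) {s : V} (hs : s ∈ S1) (u : V) : u ∉ rho G S s :=
  fun hu => hc.not_und hs (mem_rho.1 hu).2.symm hu rfl

theorem mem_rho_adj {u z : V} (hu : u ∈ rho G S z) : G.Adj z u := (mem_rho.1 hu).2.symm

/-- If `u` is undominated and adjacent to `x` then `u ∈ rho x`. -/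
theorem mem_rho_of {u z x : V} (hu : u ∈ rho G S z) (hx : G.Adj u x) : u ∈ rho G S x :=
  mem_rho.2 ⟨(mem_rho.1 hu).1, hx⟩

/-- The attachment of a vertex of a triangle component. -/
theorem Ctx.att (hc : Ctx G S1 S) {z a b : V} (hab : a ≠ b) (hz : rho G S z = {a, b})
    (hd : G.degree z = 4) : ∃ s ∈ S1, ∃ g g', g ≠ g' ∧ Nb G z a b g g' ∧ G.Adj s g ∧
      G.Adj s g' := by
  have ha : a ∈ rho G S z := by rw [hz]; simp
  have hb : b ∈ rho G S z := by rw [hz]; simp
  have hzS : z ∉ S1 := fun h => hc.rho_s h a ha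
  obtain ⟨s, hs, x, hzx, hsx⟩ := hc.maxi z hzS
  have hsz : s ≠ z := fun e => hzS (e ▸ hs)
  obtain ⟨x', hx', h1, h2⟩ := hc.nu s z hsz x hsx hzx
  refine ⟨s, hs, x, x', Ne.symm hx', ?_, hsx, h1⟩
  exact nb_of hd ⟨hab, (hc.not_und hs hsx ha).symm, (hc.not_und hs h1 ha).symm,
    (hc.not_und hs hsx hb).symm, (hc.not_und hs h1 hb).symm, Ne.symm hx'⟩ (mem_rho_adj ha)
    (mem_rho_adj hb) hzx h2

/-- Two vertices with the same pair: the class has exactly two elements. -/
theorem Ctx.class_uniq (hc : Ctx G S1 S) {a b z z1 z2 : V} (hab : a ≠ b)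
    (hz : rho G S z = {a, b}) (h1 : rho G S z1 = {a, b}) (h2 : rho G S z2 = {a, b})
    (n1 : z1 ≠ z) (n2 : z2 ≠ z) : z1 = z2 := by
  by_contra hne
  have h := (hc.tight.class_two hab hz).1
  have hs : ({z, z1, z2} : Finset V) ⊆ univ.filter (fun v => rho G S v = {a, b}) := by
    intro v hv
    simp only [mem_insert, mem_singleton] at hv
    rw [mem_filter]
    rcases hv with rfl | rfl | rfl
    · exact ⟨mem_univ _, hz⟩
    · exact ⟨mem_univ _, h1⟩
    · exact ⟨mem_univ _, h2⟩
  have := card_le_card hs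
  rw [card_eq_three.2 ⟨z, z1, z2, Ne.symm n1, Ne.symm n2, hne, rfl⟩] at this
  omega

/-- The second vertex of a class. -/
theorem Ctx.class_ex (hc : Ctx G S1 S) {a b z : V} (hab : a ≠ b)
    (hz : rho G S z = {a, b}) : ∃ z', z' ≠ z ∧ rho G S z' = {a, b} := by
  obtain ⟨z', h1, h2, h3⟩ := hc.tight.two a b hab z (by rw [hz]; simp) (by rw [hz]; simp)
  exact ⟨z', h1, hc.tight.pair_eq hab h2 h3⟩

/-- A triangle component, with the three vertices named. -/
structure Tri (G : SimpleGraph V) [DecidableRel G.Adj] (S : Finset V) (a b c : V) : Prop where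
  ab : a ≠ b
  ac : a ≠ c
  bc : b ≠ c
  all : ∀ z, (a ∈ rho G S z ∨ b ∈ rho G S z ∨ c ∈ rho G S z) →
      rho G S z = {a, b} ∨ rho G S z = {a, c} ∨ rho G S z = {b, c}
  reg : ∀ z, (a ∈ rho G S z ∨ b ∈ rho G S z ∨ c ∈ rho G S z) → G.degree z = 4 ∧
    ∀ g, G.Adj z g → G.degree g = 4

theorem Tri.swap23 {a b c : V} (h : Tri G S a b c) : Tri G S a c b where
  ab := h.ac
  ac := h.ab
  bc := Ne.symm h.bc
  all := fun z hz => by
    rcases h.all z (by tauto) with e | e | e
    · exact Or.inr (Or.inl e)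
    · exact Or.inl e
    · exact Or.inr (Or.inr (by rw [e, pair_comm]))
  reg := fun z hz => h.reg z (by tauto)

theorem Tri.rot {a b c : V} (h : Tri G S a b c) : Tri G S b c a where
  ab := h.bc
  ac := Ne.symm h.ab
  bc := Ne.symm h.ac
  all := fun z hz => by
    rcases h.all z (by tauto) with e | e | e
    · exact Or.inr (Or.inl (by rw [e, pair_comm]))
    · exact Or.inr (Or.inr (by rw [e, pair_comm]))
    · exact Or.inl e
  reg := fun z hz => h.reg z (by tauto)

/-- The two possible types of a dominated vertex `g` adjacent to a vertex `z` of a component. -/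
theorem Ctx.types (hc : Ctx G S1 S) {a b c : V} (ht : Tri G S a b c) {s g z : V} (hs : s ∈ S1)
    (hsg : G.Adj s g) (hz : rho G S z = {a, b}) (hzg : G.Adj z g) :
    (∃ z' w, z' ≠ z ∧ rho G S z' = {a, b} ∧ w ≠ z ∧ w ≠ z' ∧ w ≠ s ∧ Nb G g s z z' w ∧
      ∀ u, u ∉ rho G S w) ∨
    (∃ x y, rho G S x = {a, c} ∧ rho G S y = {b, c} ∧ Nb G g s z x y) := by
  have ha : a ∈ rho G S z := by rw [hz]; simp
  have hb : b ∈ rho G S z := by rw [hz]; simp
  have hdeg := (ht.reg z (Or.inl ha)).2 g hzg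
  have hrs : ∀ u, u ∉ rho G S s := hc.rho_s hs
  have hsne : ∀ v u, u ∈ rho G S v → s ≠ v := by
    rintro v u hu rfl
    exact hrs u hu
  have hga : g ≠ a := hc.not_und hs hsg ha
  have hgb : g ≠ b := hc.not_und hs hsg hb
  obtain ⟨x, hxz, hgx, hax⟩ := hc.nu g a hga z hzg.symm (mem_rho_adj ha).symm
  obtain ⟨y, hyz, hgy, hby⟩ := hc.nu g b hgb z hzg.symm (mem_rho_adj hb).symm
  have hrx : a ∈ rho G S x := mem_rho_of ha hax
  have hry : b ∈ rho G S y := mem_rho_of hb hby
  by_cases hB : ∃ z', z' ≠ z ∧ rho G S z' = {a, b} ∧ G.Adj g z'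
  · left
    obtain ⟨z', hz'z, hz', hgz'⟩ := hB
    have ha' : a ∈ rho G S z' := by rw [hz']; simp
    -- a fourth neighbour
    have hlt : ({s, z, z'} : Finset V).card < (G.neighborFinset g).card := by
      rw [SimpleGraph.card_neighborFinset_eq_degree, hdeg]
      have := card_le_three (a := s) (b := z) (c := z')
      omega
    obtain ⟨w, hw1, hw2⟩ := exists_mem_notMem_of_card_lt_card hlt
    rw [SimpleGraph.mem_neighborFinset] at hw1
    simp only [mem_insert, mem_singleton, not_or] at hw2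
    obtain ⟨hws, hwz, hwz'⟩ := hw2
    have hnb : Nb G g s z z' w := nb_of hdeg ⟨hsne z a ha, hsne z' a ha', Ne.symm hws,
      Ne.symm hz'z, Ne.symm hwz, Ne.symm hwz'⟩ hsg.symm hzg.symm hgz' hw1
    have hnab : rho G S w ≠ {a, b} := fun e =>
      hwz' (hc.class_uniq ht.ab hz e hz' hwz hz'z)
    refine ⟨z', w, hz'z, hz', hwz, hwz', hws, hnb, ?_⟩
    intro u hu
    have hgu : g ≠ u := hc.not_und hs hsg hu
    obtain ⟨w1, hw1w, hgw1, huw1⟩ := hc.nu g u hgu w hw1 (mem_rho_adj hu).symm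
    have huw1' : u ∈ rho G S w1 := mem_rho_of hu huw1
    have hab' : u = a ∨ u = b := by
      rcases (hnb w1).1 hgw1 with e | e | e | e
      · exact absurd (e ▸ huw1') (hrs u)
      · rw [e, hz] at huw1'
        simpa using huw1'
      · rw [e, hz'] at huw1'
        simpa using huw1'
      · exact absurd e hw1w
    -- then `w` would lie in the component
    have hexc : ∀ v, v ∈ rho G S w → (v = a ∨ v = b) := by
      intro v hv
      have hgv : g ≠ v := hc.not_und hs hsg hv
      obtain ⟨w2, hw2w, hgw2, hvw2⟩ := hc.nu g v hgv w hw1 (mem_rho_adj hv).symm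
      have hvw2' : v ∈ rho G S w2 := mem_rho_of hv hvw2
      rcases (hnb w2).1 hgw2 with e | e | e | e
      · exact absurd (e ▸ hvw2') (hrs v)
      · rw [e, hz] at hvw2'
        simpa using hvw2'
      · rw [e, hz'] at hvw2'
        simpa using hvw2'
      · exact absurd e hw2w
    have hmem : a ∈ rho G S w ∨ b ∈ rho G S w ∨ c ∈ rho G S w := by
      rcases hab' with e | e
      · exact Or.inl (e ▸ hu)
      · exact Or.inr (Or.inl (e ▸ hu))
    have hcn : c ∉ rho G S w := by
      intro h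
      rcases hexc c h with e | e
      · exact ht.ac e.symm
      · exact ht.bc e.symm
    rcases ht.all w hmem with e | e | e
    · exact hnab e
    · exact hcn (by rw [e]; simp)
    · exact hcn (by rw [e]; simp)
  · right
    have ex : rho G S x = {a, c} := by
      rcases ht.all x (Or.inl hrx) with e | e | e
      · exact absurd ⟨x, hxz, e, hgx⟩ hB
      · exact e
      · rw [e] at hrx
        simp [ht.ab, ht.ac] at hrx
    have ey : rho G S y = {b, c} := by
      rcases ht.all y (Or.inr (Or.inl hry)) with e | e | e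
      · exact absurd ⟨y, hyz, e, hgy⟩ hB
      · rw [e] at hry
        simp [Ne.symm ht.ab, ht.bc] at hry
      · exact e
    have hxy : x ≠ y := by
      rintro rfl
      rw [ey] at hrx
      simp [ht.ab, ht.ac] at hrx
    exact ⟨x, y, ex, ey, nb_of hdeg ⟨hsne z a ha, hsne x a hrx, hsne y b hry, Ne.symm hxz,
      Ne.symm hyz, hxy⟩ hsg.symm hzg.symm hgx hgy⟩

/-- The case without transversal neighbourhoods: a vertex outside `S1` dominating as much as the
vertex `s` of attachment. -/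
theorem Ctx.twin (hc : Ctx G S1 S) {a b c : V} (ht : Tri G S a b c) {z : V}
    (hz : rho G S z = {a, b})
    (hno : ∀ g x y s, G.Adj z g → rho G S x = {a, c} → rho G S y = {b, c} → s ∈ S1 →
      ¬ Nb G g s z x y) :
    ∃ s ∈ S1, 2 ≤ (univ.filter (fun g => G.Adj z g ∧ G.Adj s g)).card ∧
      (∀ g, G.Adj z g → G.Adj s g → ∃ z' w, Nb G g s z z' w ∧ ∀ u, u ∉ rho G S w) ∧
      ∃ w, w ∉ S1 ∧ ∀ x, G.Adj s x → G.Adj w x := by
  have ha : a ∈ rho G S z := by rw [hz]; simp
  have hb : b ∈ rho G S z := by rw [hz]; simp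
  obtain ⟨s, hs, g, g', hgg', hnz, hsg, hsg'⟩ := hc.att ht.ab hz (ht.reg z (Or.inl ha)).1
  have hzg : G.Adj z g := (hnz g).2 (by tauto)
  have hzg' : G.Adj z g' := (hnz g').2 (by tauto)
  rcases hc.types ht hs hsg hz hzg with
    ⟨z', w, hz'z, hz', hwz, hwz', hws, hng, hrw⟩ | ⟨x, y, hx, hy, hg⟩
  swap
  · exact absurd hg (hno g x y s hzg hx hy hs)
  rcases hc.types ht hs hsg' hz hzg' with
    ⟨z2, w', hz2z, hz2, hw'z, hw'z2, hw's, hng', hrw'⟩ | ⟨x, y, hx, hy, hg⟩
  swap
  · exact absurd hg (hno g' x y s hzg' hx hy hs)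
  obtain rfl : z' = z2 := hc.class_uniq ht.ab hz hz' hz2 hz'z hz2z
  have ha' : a ∈ rho G S z' := by rw [hz']; simp
  have hb' : b ∈ rho G S z' := by rw [hz']; simp
  have hz'g : G.Adj z' g := ((hng z').2 (by tauto)).symm
  have hz'g' : G.Adj z' g' := ((hng' z').2 (by tauto)).symm
  have hnz' : Nb G z' a b g g' := nb_of (ht.reg z' (Or.inl ha')).1 ⟨ht.ab,
    (hc.not_und hs hsg ha).symm, (hc.not_und hs hsg' ha).symm, (hc.not_und hs hsg hb).symm,
    (hc.not_und hs hsg' hb).symm, hgg'⟩ (mem_rho_adj ha') (mem_rho_adj hb') hz'g hz'g'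
  have hgw : G.Adj g w := (hng w).2 (by tauto)
  have hg'w' : G.Adj g' w' := (hng' w').2 (by tauto)
  have hww' : w = w' := by
    obtain ⟨x, hxg, hwx, hzx⟩ := hc.nu w z hwz g hgw.symm hzg
    rcases (hnz x).1 hzx with e | e | e | e
    · exact absurd (mem_rho_of ha (e ▸ hwx.symm)) (hrw a)
    · exact absurd (mem_rho_of hb (e ▸ hwx.symm)) (hrw b)
    · exact absurd e hxg
    · subst e
      rcases (hng' w).1 hwx.symm with e | e | e | e
      · exact absurd e hws
      · exact absurd e hwz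
      · exact absurd e hwz'
      · exact e
  subst hww'
  refine ⟨s, hs, ?_, ?_, w, ?_, ?_⟩
  · have : ({g, g'} : Finset V) ⊆ univ.filter (fun g => G.Adj z g ∧ G.Adj s g) := by
      intro v hv
      rw [mem_insert, mem_singleton] at hv
      rw [mem_filter]
      rcases hv with rfl | rfl
      · exact ⟨mem_univ _, hzg, hsg⟩
      · exact ⟨mem_univ _, hzg', hsg'⟩
    have := card_le_card this
    rw [card_pair hgg'] at this
    exact this
  · intro g0 h1 h2
    rcases (hnz g0).1 h1 with e | e | e | e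
    · exact absurd e (hc.not_und hs h2 ha)
    · exact absurd e (hc.not_und hs h2 hb)
    · exact ⟨z', w, e ▸ hng, hrw⟩
    · exact ⟨z', w, e ▸ hng', hrw⟩
  · intro hw
    exact hws (hc.pack w hw s hs g hgw.symm hsg)
  · intro h hh
    by_cases e1 : h = g
    · rw [e1]; exact hgw.symm
    by_cases e2 : h = g'
    · rw [e2]; exact hg'w'.symm
    have hha : h ≠ a := hc.not_und hs hh ha
    have hhb : h ≠ b := hc.not_und hs hh hb
    obtain ⟨x, hxs, hgx, hhx⟩ := hc.nu g h (Ne.symm e1) s hsg.symm hh.symm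
    rcases (hng x).1 hgx with e | e | e | e
    · exact absurd e hxs
    · subst e
      rcases (hnz h).1 hhx.symm with e | e | e | e
      · exact absurd e hha
      · exact absurd e hhb
      · exact absurd e e1
      · exact absurd e e2
    · subst e
      rcases (hnz' h).1 hhx.symm with e | e | e | e
      · exact absurd e hha
      · exact absurd e hhb
      · exact absurd e e1
      · exact absurd e e2
    · subst e
      exact hhx.symm

end Pool.Agent.TD4
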