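import Pool.Agent.TD4.Closed

set_option autoImplicit false

namespace Pool.Agent.TD4

open Finset

/-- Three vertices of degree four such that any two of them have exactly two common neighbours
and no vertex is adjacent to all three. -/
def DoubleTriangle {V : Type*} (G : SimpleGraph V) (a b c : V) : Prop :=
  (G.neighborSet a).ncard = 4 ∧ (G.neighborSet b).ncard = 4 ∧ (G.neighborSet c).ncard = 4 ∧
    (G.commonNeighbors a b).ncard = 2 ∧ (G.commonNeighbors a c).ncard = 2 ∧
    (G.commonNeighbors b c).ncard = 2 ∧ ¬ ∃ x, G.Adj a x ∧ G.Adj b x ∧ G.Adj c x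

variable {V : Type*} [Fintype V] [DecidableEq V] {G : SimpleGraph V} [DecidableRel G.Adj]

variable {S1 S : Finset V}

theorem adj_iff_mem_rho {u v z : V} (hu : u ∈ rho G S v) : G.Adj u z ↔ u ∈ rho G S z :=
  ⟨fun h => mem_rho_of hu h, fun h => (mem_rho.1 h).2⟩

theorem card_nbr (ht : Tight (rho G S)) {a b c y1 y2 : V} (hab : a ≠ b) (hac : a ≠ c)
    (hbc : b ≠ c) (e1 : rho G S y1 = {a, b}) (e2 : rho G S y2 = {a, c})
    (hall : ∀ z, a ∈ rho G S z → rho G S z = {a, b} ∨ rho G S z = {a, c}) :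
    (G.neighborSet a).ncard = 4 := by
  have ha : a ∈ rho G S y1 := by rw [e1]; simp
  have h1 : (G.neighborSet a) = ↑(univ.filter (fun z => rho G S z = {a, b}) ∪
      univ.filter (fun z => rho G S z = {a, c})) := by
    ext z
    rw [SimpleGraph.mem_neighborSet, adj_iff_mem_rho ha]
    simp only [coe_union, Set.mem_union, mem_coe, mem_filter, mem_univ, true_and]
    constructor
    · exact hall z
    · rintro (h | h) <;> rw [h] <;> simp
  rw [h1, Set.ncard_coe_finset, card_union_of_disjoint, (ht.class_two hab e1).1,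
    (ht.class_two hac e2).1]
  rw [disjoint_left]
  intro z h2 h3
  have k2 := (mem_filter.1 h2).2
  have k3 := (mem_filter.1 h3).2
  have : b ∈ rho G S z := by rw [k2]; simp
  rw [k3] at this
  simp [Ne.symm hab, hbc] at this

theorem card_common (ht : Tight (rho G S)) {a b y1 : V} (hab : a ≠ b)
    (e1 : rho G S y1 = {a, b}) : (G.commonNeighbors a b).ncard = 2 := by
  have ha : a ∈ rho G S y1 := by rw [e1]; simp
  have hb : b ∈ rho G S y1 := by rw [e1]; simp
  have h1 : (G.commonNeighbors a b) = ↑(univ.filter (fun z => rho G S z = {a, b})) := by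
    ext z
    rw [SimpleGraph.mem_commonNeighbors, adj_iff_mem_rho ha, adj_iff_mem_rho hb]
    simp only [mem_coe, mem_filter, mem_univ, true_and]
    constructor
    · rintro ⟨h2, h3⟩
      exact ht.pair_eq hab h2 h3
    · intro h
      rw [h]
      simp
  rw [h1, Set.ncard_coe_finset, (ht.class_two hab e1).1]

theorem dt_of (ht : Tight (rho G S)) {a b c y1 y2 y3 : V} (hab : a ≠ b) (hac : a ≠ c)
    (hbc : b ≠ c) (e1 : rho G S y1 = {a, b}) (e2 : rho G S y2 = {a, c})
    (e3 : rho G S y3 = {b, c}) (hall : ∀ z, (a ∈ rho G S z ∨ b ∈ rho G S z ∨ c ∈ rho G S z) →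
      rho G S z = {a, b} ∨ rho G S z = {a, c} ∨ rho G S z = {b, c}) :
    DoubleTriangle G a b c := by
  have ha : a ∈ rho G S y1 := by rw [e1]; simp
  have hb : b ∈ rho G S y1 := by rw [e1]; simp
  have hc : c ∈ rho G S y2 := by rw [e2]; simp
  refine ⟨?_, ?_, ?_, card_common ht hab e1, card_common ht hac e2, card_common ht hbc e3, ?_⟩
  · apply card_nbr ht hab hac hbc e1 e2
    intro z hz
    rcases hall z (Or.inl hz) with e | e | e
    · exact Or.inl e
    · exact Or.inr e
    · rw [e] at hz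
      simp [hab, hac] at hz
  · apply card_nbr ht (Ne.symm hab) hbc hac (y1 := y1) (y2 := y3) (by rw [e1, pair_comm]) e3
    intro z hz
    rcases hall z (Or.inr (Or.inl hz)) with e | e | e
    · exact Or.inl (by rw [e, pair_comm])
    · rw [e] at hz
      simp [Ne.symm hab, hbc] at hz
    · exact Or.inr e
  · apply card_nbr ht (Ne.symm hac) (Ne.symm hbc) hab (y1 := y2) (y2 := y3)
      (by rw [e2, pair_comm]) (by rw [e3, pair_comm])
    intro z hz
    rcases hall z (Or.inr (Or.inr hz)) with e | e | e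
    · rw [e] at hz
      simp [Ne.symm hac, Ne.symm hbc] at hz
    · exact Or.inl (by rw [e, pair_comm])
    · exact Or.inr (by rw [e, pair_comm])
  · rintro ⟨x, h1, h2, h3⟩
    have k1 := mem_rho_of ha h1
    have k2 := mem_rho_of hb h2
    have k3 := mem_rho_of hc h3
    have : rho G S x = {a, b} := ht.pair_eq hab k1 k2
    rw [this] at k3
    simp [Ne.symm hac, Ne.symm hbc] at k3

theorem lam_empty (hdeg : ∀ v, 4 ≤ G.degree v) : lam G ∅ = 2 * Fintype.card V := by
  have h1 : und G ∅ = univ := by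
    ext u
    simp [mem_und]
  have h2 : univ.filter (fun v => (rho G ∅ v).Nonempty) = univ := by
    apply filter_true_of_mem
    intro v _
    have h1 : 0 < (G.neighborFinset v).card := by
      rw [SimpleGraph.card_neighborFinset_eq_degree]
      have := hdeg v
      omega
    obtain ⟨x, hx⟩ := card_pos.1 h1
    rw [SimpleGraph.mem_neighborFinset] at hx
    exact ⟨x, mem_rho.2 ⟨by simp, hx.symm⟩⟩
  unfold lam
  rw [h1, h2, card_empty, card_univ]
  ring

theorem exists_pack (G : SimpleGraph V) : ∃ S1 : Finset V,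
    (∀ s ∈ S1, ∀ t ∈ S1, ∀ x, G.Adj s x → G.Adj t x → s = t) ∧
    (∀ v, v ∉ S1 → ∃ s ∈ S1, ∃ x, G.Adj v x ∧ G.Adj s x) := by
  classical
  obtain ⟨S1, h1, hmax⟩ := exists_max_image
    (univ.filter (fun T : Finset V => ∀ s ∈ T, ∀ t ∈ T, ∀ x, G.Adj s x → G.Adj t x → s = t))
    card ⟨∅, by simp⟩
  have hp := (mem_filter.1 h1).2
  refine ⟨S1, hp, ?_⟩
  intro v hv
  by_contra hcon
  push Not at hcon
  have h2 : insert v S1 ∈ univ.filter
      (fun T : Finset V => ∀ s ∈ T, ∀ t ∈ T, ∀ x, G.Adj s x → G.Adj t x → s = t) := by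
    rw [mem_filter]
    refine ⟨mem_univ _, ?_⟩
    intro s hs t ht x hsx htx
    rcases mem_insert.1 hs with hs1 | hs1
    · rcases mem_insert.1 ht with ht1 | ht1
      · rw [hs1, ht1]
      · rw [hs1] at hsx
        exact absurd htx (hcon t ht1 x hsx)
    · rcases mem_insert.1 ht with ht1 | ht1
      · rw [ht1] at htx
        exact absurd hsx (hcon s hs1 x htx)
      · exact hp s hs1 t ht1 x hsx htx
  have h3 := hmax _ h2
  rw [card_insert_of_notMem hv] at h3
  omega

/-- The potential after replacing part of an open packing. -/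
theorem lam_replace (hp : ∀ s ∈ S1, ∀ t ∈ S1, ∀ x, G.Adj s x → G.Adj t x → s = t)
    (A : Finset V) (hA : A ⊆ S1) (y : V → V) (hy : ∀ s ∈ A, y s ∉ S1)
    (hy2 : ∀ s ∈ A, ∀ x, G.Adj s x → G.Adj (y s) x) :
    (∀ s ∈ S1, ∀ u, G.Adj s u → ∃ s' ∈ (S1 \ A) ∪ A.image y, G.Adj u s') ∧
    lam G ((S1 \ A) ∪ A.image y) + A.card + ∑ s ∈ S1, G.degree s ≤
      2 * Fintype.card V + 4 * S1.card := by
  have hdom : ∀ s ∈ S1, ∀ u, G.Adj s u → ∃ s' ∈ (S1 \ A) ∪ A.image y, G.Adj u s' := by
    intro s hs u hu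
    by_cases hsA : s ∈ A
    · exact ⟨y s, mem_union_right _ (mem_image_of_mem _ hsA), (hy2 s hsA u hu).symm⟩
    · exact ⟨s, mem_union_left _ (mem_sdiff.2 ⟨hs, hsA⟩), hu.symm⟩
  refine ⟨hdom, ?_⟩
  set T := (S1 \ A) ∪ A.image y with hT
  have h1 : (S1.biUnion (fun s => G.neighborFinset s)).card = ∑ s ∈ S1, G.degree s := by
    rw [card_biUnion]
    · simp
    · intro s hs t ht hne
      refine disjoint_left.2 ?_
      intro x hx hx'
      rw [SimpleGraph.mem_neighborFinset] at hx hx'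
      exact hne (hp s hs t ht x hx hx')
  have h3 : Disjoint (und G T) (S1.biUnion (fun s => G.neighborFinset s)) := by
    rw [disjoint_left]
    intro x hx hx'
    obtain ⟨s, hs, hsx⟩ := mem_biUnion.1 hx'
    rw [SimpleGraph.mem_neighborFinset] at hsx
    obtain ⟨s', hs', h⟩ := hdom s hs x hsx
    exact mem_und.1 hx s' hs' h
  have h4 := card_le_univ (und G T ∪ S1.biUnion (fun s => G.neighborFinset s))
  rw [card_union_of_disjoint h3, h1] at h4
  have h5 : Disjoint S1 (A.image y) := by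
    rw [disjoint_left]
    intro x hx hx'
    obtain ⟨s, hs, rfl⟩ := mem_image.1 hx'
    exact hy s hs hx
  have h6 : Disjoint (univ.filter (fun v => (rho G T v).Nonempty)) (S1 ∪ A.image y) := by
    rw [disjoint_left]
    intro v hv hv'
    obtain ⟨u, hu⟩ := (mem_filter.1 hv).2
    obtain ⟨k1, k2⟩ := mem_rho.1 hu
    rcases mem_union.1 hv' with h | h
    · obtain ⟨s', hs', h'⟩ := hdom v h u k2.symm
      exact k1 s' hs' h'
    · exact k1 v (mem_union_right _ h) k2
  have h7 := card_le_univ (univ.filter (fun v => (rho G T v).Nonempty) ∪ (S1 ∪ A.image y))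
  rw [card_union_of_disjoint h6, card_union_of_disjoint h5] at h7
  have h8 : T.card ≤ (S1 \ A).card + (A.image y).card := card_union_le _ _
  have h9 : (S1 \ A).card + A.card = S1.card := card_sdiff_add_card_eq_card hA
  have h10 : (A.image y).card ≤ A.card := card_image_le
  unfold lam
  omega

/-- The main theorem. -/
theorem main_u (hG : G.Connected) (hdeg : ∀ v, 4 ≤ G.degree v) (hP : NoUnique G) :
    Nonempty (G ≃g HC) ∨ ∃ (D : Finset V) (T : Finset (Finset V)),
      (∀ v, ∃ u ∈ D, G.Adj v u) ∧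
      (∀ F ∈ T, (∃ a b c, F = {a, b, c} ∧ DoubleTriangle G a b c) ∧
        ∃ u ∈ F, ∃ x, G.dist u x ≤ 2 ∧ 4 < G.degree x) ∧
      (∀ F ∈ T, ∀ F' ∈ T, F ≠ F' → ∀ u ∈ F, ∀ u' ∈ F', ∀ x, ¬ (G.Adj u x ∧ G.Adj u' x)) ∧
      5 * D.card ≤ 2 * Fintype.card V + T.card := by
  classical
  obtain ⟨S1, hp, hmx⟩ := exists_pack G
  obtain ⟨S, hdom, hlam, hmin⟩ := exists_min G
    (fun T => ∀ s ∈ S1, ∀ u, G.Adj s u → ∃ s' ∈ T, G.Adj u s')
    (fun T X hT s hs u hu => by
      obtain ⟨s', hs', h⟩ := hT s hs u hu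
      exact ⟨s', mem_union_left _ hs', h⟩)
    ⟨S1, fun s hs u hu => ⟨s, hs, hu.symm⟩⟩
  have ht := tight_of_min hdeg hP hmin
  have hc : Ctx G S1 S := ⟨hdeg, hP, hdom, ht, hp, hmx⟩
  by_cases hA : ∃ a b c s g v1 v2 v3, Cfg G S1 S a b c s g v1 v2 v3
  · left
    obtain ⟨a, b, c, s, g, v1, v2, v3, C⟩ := hA
    obtain ⟨h1, h2, h3, C2⟩ := C.cfg2 hc
    exact C2.iso hG hc
  right
  obtain ⟨D, hD, hcard⟩ := exists_dom ht hdeg
  set good : Finset V → Prop := fun F => ∀ u ∈ F, ∀ z, G.Adj u z → G.degree z = 4 ∧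
    ∀ g, G.Adj z g → G.degree g = 4 with hgood
  refine ⟨D, (fam (rho G S)).filter (fun F => ¬ good F), hD, ?_, ?_, ?_⟩
  · intro F hF
    obtain ⟨hF1, hF2⟩ := mem_filter.1 hF
    obtain ⟨a, b, c, y1, y2, y3, hF', hab, hac, hbc, e1, e2, e3, hall⟩ := ht.isTri hF1
    refine ⟨⟨a, b, c, hF', dt_of ht hab hac hbc e1 e2 e3 hall⟩, ?_⟩
    by_contra hcon
    push Not at hcon
    apply hF2
    intro u hu z hz
    have k1 : G.dist u z ≤ 2 :=
      (SimpleGraph.dist_le (SimpleGraph.Walk.cons hz SimpleGraph.Walk.nil)).trans (by simp)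
    refine ⟨le_antisymm (hcon u hu z k1) (hdeg z), ?_⟩
    intro g hg
    have k2 : G.dist u g ≤ 2 :=
      (SimpleGraph.dist_le (SimpleGraph.Walk.cons hz
        (SimpleGraph.Walk.cons hg SimpleGraph.Walk.nil))).trans (by simp)
    exact le_antisymm (hcon u hu g k2) (hdeg g)
  · intro F hF F' hF' hne u hu u' hu' x hx
    replace hF := (mem_filter.1 hF).1
    replace hF' := (mem_filter.1 hF').1
    have hcu : clo (rho G S) u = F := (ht.isTri hF).clo_eq hu
    have hcu' : clo (rho G S) u' = F' := (ht.isTri hF').clo_eq hu'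
    have m1 : u ∈ clo (rho G S) u := by rw [hcu]; exact hu
    have m2 : u' ∈ clo (rho G S) u' := by rw [hcu']; exact hu'
    obtain ⟨z, hz, -⟩ := mem_clo.1 m1
    obtain ⟨z', hz', -⟩ := mem_clo.1 m2
    have k1 := mem_rho_of hz hx.1
    have k2 := mem_rho_of hz' hx.2
    have m3 : u' ∈ clo (rho G S) u := mem_clo.2 ⟨x, k1, k2⟩
    rw [hcu] at m3
    exact (disjoint_left.1 (ht.fam_disjoint hF hF' hne)) m3 hu'
  -- the count
  set Gf := (fam (rho G S)).filter good with hGf
  have hsplit : Gf.card + ((fam (rho G S)).filter (fun F => ¬ good F)).card =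
      (fam (rho G S)).card := card_filter_add_card_filter_not _
  set Z := Gf.biUnion (remv (rho G S)) with hZ
  have hZ6 : 6 * Gf.card ≤ Z.card := ht.count_sub (filter_subset _ _)
  have htwin : ∀ z, ∃ s, z ∈ Z → (s ∈ S1 ∧
      2 ≤ (univ.filter (fun g => G.Adj z g ∧ G.Adj s g)).card ∧
      (∀ g, G.Adj z g → G.Adj s g → ∃ z' w, Nb G g s z z' w ∧ ∀ u, u ∉ rho G S w) ∧
      ∃ w, w ∉ S1 ∧ ∀ x, G.Adj s x → G.Adj w x) := by
    intro z
    by_cases hz : z ∈ Z
    · obtain ⟨F, hF, hzF⟩ := mem_biUnion.1 hz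
      obtain ⟨hF1, hF2⟩ := mem_filter.1 hF
      obtain ⟨⟨u, hu⟩, hs⟩ := mem_remv.1 hzF
      obtain ⟨a, b, c, y1, y2, y3, hF', hab, hac, hbc, e1, e2, e3, hall⟩ := ht.isTri hF1
      have hT : Tri G S a b c := by
        refine ⟨hab, hac, hbc, hall, ?_⟩
        intro z hz
        have hex : ∃ u ∈ F, u ∈ rho G S z := by
          rw [hF']
          rcases hz with h | h | h
          · exact ⟨a, by simp, h⟩
          · exact ⟨b, by simp, h⟩
          · exact ⟨c, by simp, h⟩
        obtain ⟨u, huF, huz⟩ := hex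
        exact hF2 u huF z (mem_rho.1 huz).2
      have h1 : a ∈ rho G S z ∨ b ∈ rho G S z ∨ c ∈ rho G S z := by
        have := hs hu
        rw [hF'] at this
        simp only [mem_insert, mem_singleton] at this
        rcases this with e | e | e
        · exact Or.inl (e ▸ hu)
        · exact Or.inr (Or.inl (e ▸ hu))
        · exact Or.inr (Or.inr (e ▸ hu))
      have gen : ∀ a b c, Tri G S a b c → rho G S z = {a, b} → ∀ g x y s, G.Adj z g →
          rho G S x = {a, c} → rho G S y = {b, c} → s ∈ S1 → ¬ Nb G g s z x y := by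
        intro a b c hT hz g x y s _ hx hy hs hn
        exact hA ⟨a, b, c, s, g, z, x, y, ⟨hT, hs, hz, hx, hy, hn⟩⟩
      rcases hT.all z h1 with e | e | e
      · obtain ⟨s, h⟩ := hc.twin hT e (gen a b c hT e)
        exact ⟨s, fun _ => h⟩
      · obtain ⟨s, h⟩ := hc.twin hT.swap23 e (gen a c b hT.swap23 e)
        exact ⟨s, fun _ => h⟩
      · obtain ⟨s, h⟩ := hc.twin hT.rot e (gen b c a hT.rot e)
        exact ⟨s, fun _ => h⟩
    · exact ⟨z, fun h => absurd h hz⟩
  choose σ hσ using htwin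
  have hfib : ∀ s ∈ Z.image σ, (Z.filter (fun z => σ z = s)).card ≤ G.degree s := by
    intro s _
    have hdc := sum_card_bipartiteAbove_eq_sum_card_bipartiteBelow
      (s := Z.filter (fun z => σ z = s)) (t := G.neighborFinset s) (fun z g => G.Adj z g)
    have hl : (Z.filter (fun z => σ z = s)).card * 2 ≤
        ∑ z ∈ Z.filter (fun z => σ z = s),
          (bipartiteAbove (fun z g => G.Adj z g) (G.neighborFinset s) z).card := by
      rw [← smul_eq_mul]
      apply card_nsmul_le_sum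
      intro z hz
      obtain ⟨hz1, hz2⟩ := mem_filter.1 hz
      have := hσ z hz1
      rw [hz2] at this
      refine this.2.1.trans (card_le_card ?_)
      intro g hg
      obtain ⟨-, k1, k2⟩ := mem_filter.1 hg
      rw [mem_bipartiteAbove, SimpleGraph.mem_neighborFinset]
      exact ⟨k2, k1⟩
    have hr : ∑ g ∈ G.neighborFinset s,
        (bipartiteBelow (fun z g => G.Adj z g) (Z.filter (fun z => σ z = s)) g).card ≤
        (G.neighborFinset s).card * 2 := by
      rw [← smul_eq_mul]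
      apply sum_le_card_nsmul
      intro g hg
      rw [SimpleGraph.mem_neighborFinset] at hg
      by_cases hex : ∃ z ∈ Z.filter (fun z => σ z = s), G.Adj z g
      · obtain ⟨z, hz, hzg⟩ := hex
        obtain ⟨hz1, hz2⟩ := mem_filter.1 hz
        have := hσ z hz1
        rw [hz2] at this
        obtain ⟨z', w, hn, hrw⟩ := this.2.2.1 g hzg hg
        have hsubs : bipartiteBelow (fun z g => G.Adj z g) (Z.filter (fun z => σ z = s)) g ⊆
            {z, z'} := by
          intro v hv
          obtain ⟨hv1, hv2⟩ := (mem_bipartiteBelow _).1 hv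
          have hvZ : v ∈ Z := (mem_filter.1 hv1).1
          obtain ⟨F, hF, hvF⟩ := mem_biUnion.1 hvZ
          obtain ⟨⟨u, hu⟩, -⟩ := mem_remv.1 hvF
          rw [mem_insert, mem_singleton]
          rcases (hn v).1 hv2.symm with e | e | e | e
          · exact absurd (e ▸ hu) (hc.rho_s this.1 u)
          · exact Or.inl e
          · exact Or.inr e
          · exact absurd (e ▸ hu) (hrw u)
        exact (card_le_card hsubs).trans Finset.card_le_two
      · have : bipartiteBelow (fun z g => G.Adj z g) (Z.filter (fun z => σ z = s)) g = ∅ := by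
          apply eq_empty_of_forall_notMem
          intro v hv
          obtain ⟨hv1, hv2⟩ := (mem_bipartiteBelow _).1 hv
          exact hex ⟨v, hv1, hv2⟩
        rw [this]
        simp
    rw [SimpleGraph.card_neighborFinset_eq_degree] at hr
    omega
  have hsum : Z.card ≤ ∑ s ∈ Z.image σ, G.degree s := by
    rw [card_eq_sum_card_image σ Z]
    exact sum_le_sum hfib
  have hAS : Z.image σ ⊆ S1 := by
    intro s hs
    obtain ⟨z, hz, rfl⟩ := mem_image.1 hs
    exact (hσ z hz).1
  have hyex : ∀ s, ∃ w, s ∈ Z.image σ → (w ∉ S1 ∧ ∀ x, G.Adj s x → G.Adj w x) := by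
    intro s
    by_cases hs : s ∈ Z.image σ
    · obtain ⟨z, hz, rfl⟩ := mem_image.1 hs
      obtain ⟨w, hw⟩ := (hσ z hz).2.2.2
      exact ⟨w, fun _ => hw⟩
    · exact ⟨s, fun h => absurd h hs⟩
  choose y hy using hyex
  obtain ⟨hTdom, hTlam⟩ := lam_replace hp (Z.image σ) hAS y (fun s hs => (hy s hs).1)
    (fun s hs => (hy s hs).2)
  have hfin := hlam _ hTdom
  have hd1 : ∑ s ∈ S1 \ Z.image σ, G.degree s + ∑ s ∈ Z.image σ, G.degree s =
      ∑ s ∈ S1, G.degree s := sum_sdiff hAS
  have hd2 : (S1 \ Z.image σ).card * 4 ≤ ∑ s ∈ S1 \ Z.image σ, G.degree s := by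
    rw [← smul_eq_mul]
    exact card_nsmul_le_sum _ _ _ (fun s _ => hdeg s)
  have hd3 : (Z.image σ).card * 4 ≤ ∑ s ∈ Z.image σ, G.degree s := by
    rw [← smul_eq_mul]
    exact card_nsmul_le_sum _ _ _ (fun s _ => hdeg s)
  have hd4 : (S1 \ Z.image σ).card + (Z.image σ).card = S1.card :=
    card_sdiff_add_card_eq_card hAS
  omega

end Pool.Agent.TD4
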