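import Pool.Agent.TD4.Fam

set_option autoImplicit false

namespace Pool.Agent.TD4

open Finset

variable {V : Type*} [Fintype V] [DecidableEq V] (G : SimpleGraph V) [DecidableRel G.Adj]

/-- The vertices with no neighbour in `S`. -/
def und (S : Finset V) : Finset V := univ.filter (fun u => ∀ s ∈ S, ¬ G.Adj u s)

/-- The neighbours of `v` that have no neighbour in `S`. -/
def rho (S : Finset V) (v : V) : Finset V := (und G S).filter (fun u => G.Adj u v)

/-- The potential. -/
def lam (S : Finset V) : ℕ :=
  5 * S.card + (und G S).card + (univ.filter (fun v => (rho G S v).Nonempty)).card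

variable {G}

theorem mem_und {S : Finset V} {u : V} : u ∈ und G S ↔ ∀ s ∈ S, ¬ G.Adj u s := by simp [und]

theorem mem_rho {S : Finset V} {u v : V} :
    u ∈ rho G S v ↔ (∀ s ∈ S, ¬ G.Adj u s) ∧ G.Adj u v := by
  simp [rho, mem_und]

theorem und_union (S X : Finset V) : und G (S ∪ X) = und G S \ X.biUnion (rho G S) := by
  ext u
  simp only [mem_und, mem_sdiff, mem_biUnion, mem_rho, mem_union, not_exists, not_and]
  constructor
  · intro h
    exact ⟨fun s hs => h s (Or.inl hs), fun x hx _ => h x (Or.inr hx)⟩
  · rintro ⟨h1, h2⟩ s (hs | hs)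
    · exact h1 s hs
    · exact h2 s hs h1

theorem rho_union (S X : Finset V) (v : V) :
    rho G (S ∪ X) v = rho G S v \ X.biUnion (rho G S) := by
  ext u
  rw [rho, mem_filter, und_union, mem_sdiff, mem_sdiff, rho, mem_filter]
  tauto

theorem lam_union (S X : Finset V) (hd : Disjoint S X) :
    lam G (S ∪ X) + (X.biUnion (rho G S)).card + (remv (rho G S) (X.biUnion (rho G S))).card =
      lam G S + 5 * X.card := by
  have h1 : X.biUnion (rho G S) ⊆ und G S := by
    intro u hu
    obtain ⟨x, -, hx⟩ := mem_biUnion.1 hu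
    exact (mem_filter.1 hx).1
  have h2 : (und G (S ∪ X)).card + (X.biUnion (rho G S)).card = (und G S).card := by
    rw [und_union]
    exact card_sdiff_add_card_eq_card h1
  have h3 : remv (rho G S) (X.biUnion (rho G S)) ⊆
      univ.filter (fun v => (rho G S v).Nonempty) := by
    intro v hv
    exact mem_filter.2 ⟨mem_univ _, (mem_remv.1 hv).1⟩
  have h4 : univ.filter (fun v => (rho G (S ∪ X) v).Nonempty) =
      univ.filter (fun v => (rho G S v).Nonempty) \ remv (rho G S) (X.biUnion (rho G S)) := by
    ext v
    rw [mem_filter, mem_sdiff, mem_filter, mem_remv, rho_union]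
    constructor
    · rintro ⟨-, u, hu⟩
      obtain ⟨hu1, hu2⟩ := mem_sdiff.1 hu
      exact ⟨⟨mem_univ _, ⟨u, hu1⟩⟩, fun hcon => hu2 (hcon.2 hu1)⟩
    · rintro ⟨⟨-, hne⟩, hcon⟩
      refine ⟨mem_univ _, ?_⟩
      rw [sdiff_nonempty]
      exact fun hs => hcon ⟨hne, hs⟩
  have h5 : (univ.filter (fun v => (rho G (S ∪ X) v).Nonempty)).card +
      (remv (rho G S) (X.biUnion (rho G S))).card =
      (univ.filter (fun v => (rho G S v).Nonempty)).card := by
    rw [h4]
    exact card_sdiff_add_card_eq_card h3
  have h6 : (S ∪ X).card = S.card + X.card := card_union_of_disjoint hd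
  unfold lam
  omega

variable (G)

/-- A set that is minimal for the potential, among the sets with an upward closed property. -/
theorem exists_min (P : Finset V → Prop) (hP : ∀ S X, P S → P (S ∪ X)) (hne : ∃ S, P S) :
    ∃ S, P S ∧ (∀ T, P T → lam G S ≤ lam G T) ∧
    ∀ X : Finset V, X.Nonempty → Disjoint S X → lam G S < lam G (S ∪ X) := by
  classical
  obtain ⟨S0, hS0⟩ := hne
  obtain ⟨S, hS, hmin⟩ := exists_min_image (univ.filter (fun S : Finset V => P S))
    (fun S => (Fintype.card V + 1) * lam G S + (Fintype.card V - S.card))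
    ⟨S0, mem_filter.2 ⟨mem_univ _, hS0⟩⟩
  have hS1 : P S := (mem_filter.1 hS).2
  have key : ∀ T : Finset V, P T → lam G S ≤ lam G T ∧ (lam G T = lam G S → T.card ≤ S.card) := by
    intro T hT
    have h1 := hmin T (mem_filter.2 ⟨mem_univ _, hT⟩)
    have h2 : T.card ≤ Fintype.card V := card_le_univ T
    have h3 : S.card ≤ Fintype.card V := card_le_univ S
    constructor
    · by_contra hlt
      push Not at hlt
      have h4 : (Fintype.card V + 1) * (lam G T + 1) ≤ (Fintype.card V + 1) * lam G S :=
        Nat.mul_le_mul_left _ hlt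
      have h5 : (Fintype.card V + 1) * (lam G T + 1) =
          (Fintype.card V + 1) * lam G T + (Fintype.card V + 1) := by ring
      omega
    · intro he
      rw [he] at h1
      omega
  refine ⟨S, hS1, fun T hT => (key T hT).1, ?_⟩
  intro X hX hd
  have h1 := key (S ∪ X) (hP S X hS1)
  rcases lt_or_eq_of_le h1.1 with h2 | h2
  · exact h2
  · exfalso
    have h3 := h1.2 h2.symm
    rw [card_union_of_disjoint hd] at h3
    have h4 := card_pos.2 hX
    omega

variable {G}

theorem not_mem_of_rho {S : Finset V} {x : V} (hx : (rho G S x).Nonempty) : x ∉ S := by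
  obtain ⟨u, hu⟩ := hx
  obtain ⟨h1, h2⟩ := mem_rho.1 hu
  exact fun h => h1 x h h2

/-- The hypothesis on common neighbours, in the form used. -/
def NoUnique (G : SimpleGraph V) : Prop :=
  ∀ u w, u ≠ w → ∀ x, G.Adj u x → G.Adj w x → ∃ x', x' ≠ x ∧ G.Adj u x' ∧ G.Adj w x'

theorem tight_of_min (hdeg : ∀ v, 4 ≤ G.degree v) (hP : NoUnique G) {S : Finset V}
    (hmin : ∀ X : Finset V, X.Nonempty → Disjoint S X → lam G S < lam G (S ∪ X)) :
    Tight (rho G S) := by
  have hone : ∀ x, (rho G S x).Nonempty →
      (rho G S x).card + (remv (rho G S) (rho G S x)).card ≤ 4 := by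
    intro x hx
    have hd : Disjoint S {x} := by
      rw [disjoint_singleton_right]
      exact not_mem_of_rho hx
    have h1 := hmin {x} ⟨x, by simp⟩ hd
    have h2 := lam_union (G := G) S {x} hd
    rw [singleton_biUnion, card_singleton] at h2
    omega
  refine ⟨?_, ?_, hone, ?_⟩
  · intro v u hu
    obtain ⟨h1, -⟩ := mem_rho.1 hu
    have h2 : univ.filter (fun x => u ∈ rho G S x) = G.neighborFinset u := by
      ext x
      rw [mem_filter, mem_rho, SimpleGraph.mem_neighborFinset]
      exact ⟨fun h => h.2.2, fun h => ⟨mem_univ _, h1, h⟩⟩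
    rw [h2, SimpleGraph.card_neighborFinset_eq_degree]
    exact hdeg u
  · intro u w huw v hu hw
    obtain ⟨h1, h2⟩ := mem_rho.1 hu
    obtain ⟨h3, h4⟩ := mem_rho.1 hw
    obtain ⟨x', hx', h5, h6⟩ := hP u w huw v h2 h4
    exact ⟨x', hx', mem_rho.2 ⟨h1, h5⟩, mem_rho.2 ⟨h3, h6⟩⟩
  · intro x y
    rcases (rho G S x).eq_empty_or_nonempty with hx | hx
    · rw [hx, empty_union]
      rcases (rho G S y).eq_empty_or_nonempty with hy | hy
      · rw [hy]
        have : remv (rho G S) ∅ = ∅ := by
          apply eq_empty_of_forall_notMem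
          intro v hv
          obtain ⟨⟨u, hu⟩, h2⟩ := mem_remv.1 hv
          exact notMem_empty _ (h2 hu)
        rw [this]
        simp
      · have := hone y hy
        omega
    · rcases (rho G S y).eq_empty_or_nonempty with hy | hy
      · rw [hy, union_empty]
        have := hone x hx
        omega
      · by_cases hxy : x = y
        · subst hxy
          rw [union_self]
          have := hone x hx
          omega
        · have hd : Disjoint S {x, y} := by
            rw [disjoint_left]
            intro z hz hz'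
            rw [mem_insert, mem_singleton] at hz'
            rcases hz' with rfl | rfl
            · exact not_mem_of_rho hx hz
            · exact not_mem_of_rho hy hz
          have h1 := hmin {x, y} ⟨x, by simp⟩ hd
          have h2 := lam_union (G := G) S {x, y} hd
          rw [card_pair hxy] at h2
          have h3 : ({x, y} : Finset V).biUnion (rho G S) = rho G S x ∪ rho G S y := by
            rw [biUnion_insert, singleton_biUnion]
          rw [h3] at h2
          omega

/-- The total dominating set obtained from a minimal set. -/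
theorem exists_dom {S : Finset V} (ht : Tight (rho G S)) (hdeg : ∀ v, 4 ≤ G.degree v) :
    ∃ D : Finset V, (∀ v, ∃ u ∈ D, G.Adj v u) ∧
      5 * D.card ≤ lam G S + (fam (rho G S)).card := by
  obtain ⟨E, hE, hE'⟩ := ht.hit
  have hR : ∀ z, rho G S z ⊆ und G S := fun z => filter_subset _ _
  obtain ⟨c1, c2⟩ := ht.count (und G S) hR
  refine ⟨S ∪ E, ?_, ?_⟩
  · intro v
    by_cases hv : ∃ s ∈ S, G.Adj v s
    · obtain ⟨s, hs, hvs⟩ := hv
      exact ⟨s, mem_union_left _ hs, hvs⟩
    · push Not at hv
      have h1 : 0 < (G.neighborFinset v).card := by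
        rw [SimpleGraph.card_neighborFinset_eq_degree]
        have := hdeg v
        omega
      obtain ⟨x, hx⟩ := card_pos.1 h1
      rw [SimpleGraph.mem_neighborFinset] at hx
      obtain ⟨y, hy, hvy⟩ := hE' x v (mem_rho.2 ⟨hv, hx⟩)
      exact ⟨y, mem_union_right _ hy, (mem_rho.1 hvy).2⟩
  · have h1 : (S ∪ E).card ≤ S.card + E.card := card_union_le _ _
    unfold lam
    omega

end Pool.Agent.TD4
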